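import Mathlib

set_option autoImplicit false

namespace Pool.Agent.Lib.MP_79a327_al

/-! ### Cones in additive abelian groups closed under a set of operators -/

theorem end_add_apply {M : Type*} [AddCommGroup M] (w w' : AddMonoid.End M) (a : M) :
    (w + w') a = w a + w' a := rfl

theorem end_mul_apply {M : Type*} [AddCommGroup M] (w w' : AddMonoid.End M) (a : M) :
    (w * w') a = w (w' a) := rfl

/-- The operators obtained from `S` by sums and compositions. -/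
inductive Gen {M : Type*} [AddCommGroup M] (S : Set (AddMonoid.End M)) :
    AddMonoid.End M → Prop
  | base (w : AddMonoid.End M) : w ∈ S → Gen S w
  | add (w w' : AddMonoid.End M) : Gen S w → Gen S w' → Gen S (w + w')
  | mul (w w' : AddMonoid.End M) : Gen S w → Gen S w' → Gen S (w * w')

/-- Positive cones stable under the operators in `S`. -/
structure Cone {M : Type*} [AddCommGroup M] (S : Set (AddMonoid.End M)) (P : Set M) : Prop where
  zero : (0 : M) ∈ P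
  add : ∀ a ∈ P, ∀ b ∈ P, a + b ∈ P
  pt : ∀ a ∈ P, -a ∈ P → a = 0
  act : ∀ w ∈ S, ∀ a ∈ P, w a ∈ P

theorem Cone.act_gen {M : Type*} [AddCommGroup M] {S : Set (AddMonoid.End M)} {P : Set M}
    (hP : Cone S P) {w : AddMonoid.End M} (hw : Gen S w) : ∀ a ∈ P, w a ∈ P := by
  induction hw with
  | base w hw => exact hP.act w hw
  | add w w' _ _ ih ih' => intro a ha; exact hP.add _ (ih a ha) _ (ih' a ha)
  | mul w w' _ _ ih ih' => intro a ha; exact ih _ (ih' a ha)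

theorem Cone.extend {M : Type*} [AddCommGroup M] (S : Set (AddMonoid.End M))
    (h1 : (1 : AddMonoid.End M) ∈ S)
    (hOre : ∀ a : M, a ≠ 0 → ∀ w₁ w₂, Gen S w₁ → Gen S w₂ →
      ∃ w₁' w₂', Gen S w₁' ∧ Gen S w₂' ∧ w₁' (w₁ a) = w₂' (w₂ a) ∧ w₁' (w₁ a) ≠ 0)
    {P : Set M} (hP : Cone S P) :
    ∃ Q, P ⊆ Q ∧ Cone S Q ∧ ∀ a, a ∈ Q ∨ -a ∈ Q := by
  obtain ⟨Q, hPQ, hQ⟩ := zorn_subset_nonempty {Q : Set M | Cone S Q} (by
    intro c hc hch hne
    refine ⟨⋃₀ c, ?_, fun s hs => Set.subset_sUnion_of_mem hs⟩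
    obtain ⟨Q₀, hQ₀⟩ := hne
    have key : ∀ a ∈ ⋃₀ c, ∀ b ∈ ⋃₀ c, ∃ Q ∈ c, a ∈ Q ∧ b ∈ Q := by
      rintro a ⟨Q1, hQ1, ha⟩ b ⟨Q2, hQ2, hb⟩
      rcases hch.total hQ1 hQ2 with h | h
      · exact ⟨Q2, hQ2, h ha, hb⟩
      · exact ⟨Q1, hQ1, ha, h hb⟩
    refine ⟨⟨Q₀, hQ₀, (hc hQ₀).zero⟩, ?_, ?_, ?_⟩
    · intro a ha b hb
      obtain ⟨Q, hQ, ha, hb⟩ := key a ha b hb
      exact ⟨Q, hQ, (hc hQ).add a ha b hb⟩
    · intro a ha hb
      obtain ⟨Q, hQ, ha, hb⟩ := key a ha _ hb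
      exact (hc hQ).pt a ha hb
    · rintro w hw a ⟨Q, hQ, ha⟩
      exact ⟨Q, hQ, (hc hQ).act w hw a ha⟩) P hP
  have hQc : Cone S Q := hQ.prop
  refine ⟨Q, hPQ, hQc, ?_⟩
  -- the conflict lemma
  have conflict : ∀ a : M, a ∉ Q → ∃ w, Gen S w ∧ -(w a) ∈ Q := by
    intro a ha
    by_contra hcon
    push Not at hcon
    set Qa : Set M := Q ∪ {z | ∃ q ∈ Q, ∃ w, Gen S w ∧ z = q + w a} with hQa
    have hcone : Cone S Qa := by
      refine ⟨Or.inl hQc.zero, ?_, ?_, ?_⟩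
      · rintro x (hx | ⟨q, hq, w, hw, rfl⟩) y (hy | ⟨q', hq', w', hw', rfl⟩)
        · exact Or.inl (hQc.add _ hx _ hy)
        · exact Or.inr ⟨x + q', hQc.add _ hx _ hq', w', hw', by abel⟩
        · exact Or.inr ⟨q + y, hQc.add _ hq _ hy, w, hw, by abel⟩
        · refine Or.inr ⟨q + q', hQc.add _ hq _ hq', w + w', Gen.add _ _ hw hw', ?_⟩
          rw [end_add_apply]; abel
      · rintro x (hx | ⟨q, hq, w, hw, rfl⟩) hy
        · rcases hy with hy | ⟨q', hq', w', hw', h⟩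
          · exact hQc.pt _ hx hy
          · exact absurd (show -(w' a) ∈ Q by
              have : -(w' a) = x + q' := by
                have h2 : w' a = -x - q' := by rw [h]; abel
                rw [h2]; abel
              rw [this]; exact hQc.add _ hx _ hq') (hcon w' hw')
        · rcases hy with hy | ⟨q', hq', w', hw', h⟩
          · exact absurd (show -(w a) ∈ Q by
              have : -(w a) = -(q + w a) + q := by abel
              rw [this]; exact hQc.add _ hy _ hq) (hcon w hw)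
          · exact absurd (show -((w + w') a) ∈ Q by
              have : -((w + w') a) = q + q' := by
                rw [end_add_apply]
                have h2 : w a = -(q' + w' a) - q := by rw [← h]; abel
                rw [h2]; abel
              rw [this]; exact hQc.add _ hq _ hq') (hcon _ (Gen.add _ _ hw hw'))
      · rintro v hv x (hx | ⟨q, hq, w, hw, rfl⟩)
        · exact Or.inl (hQc.act v hv _ hx)
        · exact Or.inr ⟨v q, hQc.act v hv _ hq, v * w, Gen.mul _ _ (Gen.base v hv) hw, by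
            rw [map_add]; rfl⟩
    have hle : Q ⊆ Qa := Set.subset_union_left
    have heq : Q = Qa := hQ.eq_of_subset hcone hle
    apply ha
    rw [heq]
    exact Or.inr ⟨0, hQc.zero, 1, Gen.base 1 h1, by simp⟩
  intro a
  by_contra hcon
  push Not at hcon
  obtain ⟨ha, hna⟩ := hcon
  obtain ⟨w₁, hw₁, h₁⟩ := conflict a ha
  obtain ⟨w₂, hw₂, h₂⟩ := conflict (-a) hna
  rw [map_neg, neg_neg] at h₂
  have ha0 : a ≠ 0 := by rintro rfl; exact ha hQc.zero
  obtain ⟨w₁', w₂', hw₁', hw₂', heq, hne⟩ := hOre a ha0 w₁ w₂ hw₁ hw₂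
  have e1 : -(w₁' (w₁ a)) ∈ Q := by
    have := hQc.act_gen hw₁' _ h₁
    rwa [map_neg] at this
  have e2 : w₁' (w₁ a) ∈ Q := by
    rw [heq]; exact hQc.act_gen hw₂' _ h₂
  exact hne (hQc.pt _ e2 e1)

/-! ### Orders on groups -/

/-- Positive cones (containing `1`) of bi-invariant partial orders. -/
structure PO {G : Type*} [Group G] (P : Set G) : Prop where
  one : (1 : G) ∈ P
  mul : ∀ a ∈ P, ∀ b ∈ P, a * b ∈ P
  pt : ∀ a ∈ P, a⁻¹ ∈ P → a = 1
  conj : ∀ a ∈ P, ∀ x : G, x⁻¹ * a * x ∈ P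

/-- The weakly abelian property of a cone. -/
def WA {G : Type*} [Group G] (P : Set G) : Prop :=
  ∀ a ∈ P, ∀ x : G, (x⁻¹ * a * x)⁻¹ * a ^ 2 ∈ P

/-- Total cones. -/
def Tot {G : Type*} [Group G] (P : Set G) : Prop := ∀ a : G, a ∈ P ∨ a⁻¹ ∈ P

theorem wa_strict {G : Type*} [Group G] {P : Set G} (hP : PO P) (hW : WA P) {g : G}
    (hg : g ∈ P) (hg1 : g ≠ 1) (x : G) : (x⁻¹ * g * x)⁻¹ * g ^ 2 ≠ 1 := by
  intro h
  have h1 : x⁻¹ * g * x = g ^ 2 := by
    rw [inv_mul_eq_one] at h; exact h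
  have h2 : (x * x)⁻¹ * g * (x * x) = g ^ 4 := by
    calc (x * x)⁻¹ * g * (x * x) = x⁻¹ * (x⁻¹ * g * x) * x := by group
      _ = x⁻¹ * (g ^ 2) * x := by rw [h1]
      _ = (x⁻¹ * g * x) ^ 2 := by simp only [pow_two]; group
      _ = (g ^ 2) ^ 2 := by rw [h1]
      _ = g ^ 4 := by group
  have h3 := hW g hg (x * x)
  rw [h2] at h3
  have h4 : (g ^ 4)⁻¹ * g ^ 2 = (g ^ 2)⁻¹ := by group
  rw [h4] at h3
  have h5 : g ^ 2 = 1 := hP.pt _ (by rw [pow_two]; exact hP.mul _ hg _ hg) h3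
  have h6 : g⁻¹ = g := by
    rw [pow_two] at h5
    exact inv_eq_of_mul_eq_one_right h5
  exact hg1 (hP.pt g hg (by rw [h6]; exact hg))

/-- Lexicographic combination of a total weakly abelian order on a quotient and one on the
kernel. -/
theorem lex {G H : Type*} [Group G] [Group H] (π : G →* H)
    {R : Set H} (hR : PO R) (hRW : WA R) (hRT : Tot R)
    {N : Set G} (hN0 : ∀ g ∈ N, π g = 1) (hN1 : (1 : G) ∈ N)
    (hNmul : ∀ a ∈ N, ∀ b ∈ N, a * b ∈ N) (hNpt : ∀ a ∈ N, a⁻¹ ∈ N → a = 1)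
    (hNconj : ∀ a ∈ N, ∀ x : G, x⁻¹ * a * x ∈ N)
    (hNW : ∀ a ∈ N, ∀ x : G, (x⁻¹ * a * x)⁻¹ * a ^ 2 ∈ N)
    (hNT : ∀ a, π a = 1 → a ∈ N ∨ a⁻¹ ∈ N) :
    PO ({g | π g ≠ 1 ∧ π g ∈ R} ∪ N) ∧ WA ({g | π g ≠ 1 ∧ π g ∈ R} ∪ N) ∧
      Tot ({g | π g ≠ 1 ∧ π g ∈ R} ∪ N) := by
  refine ⟨⟨Or.inr hN1, ?_, ?_, ?_⟩, ?_, ?_⟩
  · rintro a (⟨ha1, ha⟩ | ha) b (⟨hb1, hb⟩ | hb)
    · refine Or.inl ⟨?_, ?_⟩
      · rw [map_mul]
        intro h
        have : (π a)⁻¹ = π b := inv_eq_of_mul_eq_one_right h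
        exact ha1 (hR.pt _ ha (by rw [this]; exact hb))
      · rw [map_mul]; exact hR.mul _ ha _ hb
    · refine Or.inl ⟨?_, ?_⟩
      · rw [map_mul, hN0 b hb, mul_one]; exact ha1
      · rw [map_mul, hN0 b hb, mul_one]; exact ha
    · refine Or.inl ⟨?_, ?_⟩
      · rw [map_mul, hN0 a ha, one_mul]; exact hb1
      · rw [map_mul, hN0 a ha, one_mul]; exact hb
    · exact Or.inr (hNmul a ha b hb)
  · rintro a (⟨ha1, ha⟩ | ha) (⟨hb1, hb⟩ | hb)
    · rw [map_inv] at hb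
      exact absurd (hR.pt _ ha hb) ha1
    · exact absurd (by simpa using hN0 _ hb) ha1
    · exact absurd (by simpa using hN0 _ ha) hb1
    · exact hNpt a ha hb
  · rintro a (⟨ha1, ha⟩ | ha) x
    · refine Or.inl ⟨?_, ?_⟩
      · intro h
        apply ha1
        simp only [map_mul, map_inv] at h
        have : π a = π x * ((π x)⁻¹ * π a * π x) * (π x)⁻¹ := by group
        rw [this, h]; group
      · simp only [map_mul, map_inv]; exact hR.conj _ ha _
    · exact Or.inr (hNconj a ha x)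
  · rintro a (⟨ha1, ha⟩ | ha) x
    · refine Or.inl ⟨?_, ?_⟩
      · simp only [map_mul, map_inv, map_pow]
        exact wa_strict hR hRW ha ha1 (π x)
      · simp only [map_mul, map_inv, map_pow]
        exact hRW _ ha (π x)
    · exact Or.inr (hNW a ha x)
  · intro a
    by_cases h : π a = 1
    · rcases hNT a h with h | h
      · exact Or.inl (Or.inr h)
      · exact Or.inr (Or.inr h)
    · rcases hRT (π a) with h' | h'
      · exact Or.inl (Or.inl ⟨h, h'⟩)
      · exact Or.inr (Or.inl ⟨by simpa using h, by simpa using h'⟩)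

/-- Every partial order on a torsion-free abelian group extends to a total order. -/
theorem abelian_extend {A : Type*} [CommGroup A] (htf : ∀ a : A, ∀ n : ℕ, 0 < n → a ^ n = 1 → a = 1)
    {P : Set A} (hP : PO P) : ∃ Q, P ⊆ Q ∧ PO Q ∧ WA Q ∧ Tot Q := by
  obtain ⟨Q, hPQ, hQ, hT⟩ := Cone.extend (M := Additive A) {(1 : AddMonoid.End (Additive A))}
    rfl (by
      have hgen : ∀ w : AddMonoid.End (Additive A), Gen {1} w → ∃ n : ℕ, 0 < n ∧ ∀ a, w a = n • a := by
        intro w hw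
        induction hw with
        | base w hw =>
          rw [Set.mem_singleton_iff] at hw
          subst hw
          exact ⟨1, one_pos, fun a => by simp⟩
        | add w w' _ _ ih ih' =>
          obtain ⟨n, hn, h⟩ := ih
          obtain ⟨n', hn', h'⟩ := ih'
          exact ⟨n + n', by omega, fun a => by rw [end_add_apply, h, h', add_smul]⟩
        | mul w w' _ _ ih ih' =>
          obtain ⟨n, hn, h⟩ := ih
          obtain ⟨n', hn', h'⟩ := ih'
          exact ⟨n * n', Nat.mul_pos hn hn', fun a => by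
            rw [end_mul_apply, h', h, mul_smul]⟩
      intro a ha w₁ w₂ hw₁ hw₂
      obtain ⟨n₁, hn₁, h₁⟩ := hgen w₁ hw₁
      obtain ⟨n₂, hn₂, h₂⟩ := hgen w₂ hw₂
      refine ⟨w₂, w₁, hw₂, hw₁, ?_, ?_⟩
      · rw [h₁, h₂, h₂, h₁, smul_comm]
      · rw [h₁, h₂, ← mul_smul]
        intro h
        apply ha
        exact htf a.toMul (n₂ * n₁) (Nat.mul_pos hn₂ hn₁) h)
    (P := (Additive.toMul ⁻¹' P)) ⟨hP.one, fun a ha b hb => hP.mul _ ha _ hb,
      fun a ha hb => hP.pt _ ha hb, fun w hw a ha => by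
        rw [Set.mem_singleton_iff] at hw; subst hw; exact ha⟩
  have hPO : PO (Additive.ofMul ⁻¹' Q) := by
    refine ⟨hQ.zero, fun a ha b hb => hQ.add _ ha _ hb, fun a ha hb => hQ.pt _ ha hb, ?_⟩
    intro a ha x
    have : x⁻¹ * a * x = a := by rw [mul_comm, mul_inv_cancel_left]
    rw [this]; exact ha
  refine ⟨Additive.ofMul ⁻¹' Q, ?_, hPO, ?_, ?_⟩
  · intro a ha; exact hPQ ha
  · intro a ha x
    have : (x⁻¹ * a * x)⁻¹ * a ^ 2 = a := by
      have : x⁻¹ * a * x = a := by rw [mul_comm, mul_inv_cancel_left]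
      rw [this, pow_two, inv_mul_cancel_left]
    rw [this]; exact ha
  · intro a; exact hT _

end Pool.Agent.Lib.MP_79a327_al
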