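import Pool.Agent.Lib.MP_79a327_al.Top

set_option autoImplicit false

namespace Pool.Agent.Lib.MP_79a327_al

open SemidirectProduct

/-- The data used in the construction: a domain `R` over `ℚ`, a prime `s`, an automorphism `τ`
congruent to the identity modulo `s`, and two rational points exchanged by `τ`. -/
structure Dat (R : Type) [CommRing R] [IsDomain R] [Algebra ℚ R] where
  s : R
  prime : Prime s
  fin : ∀ P : R, P ≠ 0 → ∃ (n : ℕ) (P₀ : R), P = s ^ n * P₀ ∧ ¬ s ∣ P₀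
  τ : R ≃+* R
  τs : τ s = s
  τmod : ∀ r, s ∣ τ r - r
  e₁ : R →+* ℚ
  e₂ : R →+* ℚ
  e₁s : e₁ s = 1
  e₂s : e₂ s = 1
  e₁τ : ∀ r, e₁ (τ r) = e₂ r
  e₂τ : ∀ r, e₂ (τ r) = e₁ r
  x : R
  e₁x : e₁ x = 1
  e₂x : e₂ x = -1

namespace Dat

variable {R : Type} [CommRing R] [IsDomain R] [Algebra ℚ R] (d : Dat R)

/-- The canonical embedding. -/
noncomputable abbrev ι (R : Type) [CommRing R] [IsDomain R] : R →+* FractionRing R :=
  algebraMap R (FractionRing R)

omit [Algebra ℚ R] in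
theorem ι_inj {P Q : R} : ι R P = ι R Q ↔ P = Q :=
  (IsFractionRing.injective R (FractionRing R)).eq_iff

theorem ι_ne {P : R} (h : P ≠ 0) : ι R P ≠ 0 := by
  rw [← map_zero (ι R)]
  exact fun h' => h (ι_inj.1 h')

/-- The local ring at `s`. -/
def InO (f : FractionRing R) : Prop := ∃ P Q : R, ¬ d.s ∣ Q ∧ f * ι R Q = ι R P

/-- Its maximal ideal. -/
def InM (f : FractionRing R) : Prop := ∃ P Q : R, ¬ d.s ∣ Q ∧ f * ι R Q = ι R (d.s * P)

theorem ndvd_ne {Q : R} (h : ¬ d.s ∣ Q) : Q ≠ 0 := by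
  rintro rfl; exact h (dvd_zero _)

theorem ndvd_mul {Q Q' : R} (h : ¬ d.s ∣ Q) (h' : ¬ d.s ∣ Q') : ¬ d.s ∣ Q * Q' := by
  intro hd
  rcases d.prime.dvd_or_dvd hd with h1 | h1
  · exact h h1
  · exact h' h1

theorem ndvd_one : ¬ d.s ∣ (1 : R) := by
  intro h; exact d.prime.not_isUnit (isUnit_of_dvd_one h)

theorem s_ne : d.s ≠ 0 := d.prime.ne_zero

theorem InM.toO {f : FractionRing R} (h : d.InM f) : d.InO f := by
  obtain ⟨P, Q, hQ, h⟩ := h
  exact ⟨d.s * P, Q, hQ, h⟩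

theorem inM_zero : d.InM 0 := ⟨0, 1, d.ndvd_one, by simp⟩

theorem inO_one : d.InO 1 := ⟨1, 1, d.ndvd_one, by simp⟩

theorem inM_add {f g : FractionRing R} (hf : d.InM f) (hg : d.InM g) : d.InM (f + g) := by
  obtain ⟨P, Q, hQ, h⟩ := hf
  obtain ⟨P', Q', hQ', h'⟩ := hg
  refine ⟨P * Q' + P' * Q, Q * Q', d.ndvd_mul hQ hQ', ?_⟩
  rw [map_mul (ι R) Q]
  calc (f + g) * (ι R Q * ι R Q') = (f * ι R Q) * ι R Q' + (g * ι R Q') * ι R Q := by ring
    _ = ι R (d.s * P) * ι R Q' + ι R (d.s * P') * ι R Q := by rw [h, h']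
    _ = ι R (d.s * (P * Q' + P' * Q)) := by
      rw [← map_mul, ← map_mul, ← map_add]; congr 1; ring

theorem inO_add {f g : FractionRing R} (hf : d.InO f) (hg : d.InO g) : d.InO (f + g) := by
  obtain ⟨P, Q, hQ, h⟩ := hf
  obtain ⟨P', Q', hQ', h'⟩ := hg
  refine ⟨P * Q' + P' * Q, Q * Q', d.ndvd_mul hQ hQ', ?_⟩
  rw [map_mul (ι R) Q]
  calc (f + g) * (ι R Q * ι R Q') = (f * ι R Q) * ι R Q' + (g * ι R Q') * ι R Q := by ring
    _ = ι R P * ι R Q' + ι R P' * ι R Q := by rw [h, h']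
    _ = ι R (P * Q' + P' * Q) := by
      rw [← map_mul, ← map_mul, ← map_add]

theorem inM_neg {f : FractionRing R} (hf : d.InM f) : d.InM (-f) := by
  obtain ⟨P, Q, hQ, h⟩ := hf
  refine ⟨-P, Q, hQ, ?_⟩
  rw [neg_mul, h, ← map_neg]; congr 1; ring

theorem inM_sub {f g : FractionRing R} (hf : d.InM f) (hg : d.InM g) : d.InM (f - g) := by
  rw [sub_eq_add_neg]; exact d.inM_add hf (d.inM_neg hg)

theorem inM_mul {f g : FractionRing R} (hf : d.InM f) (hg : d.InO g) : d.InM (f * g) := by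
  obtain ⟨P, Q, hQ, h⟩ := hf
  obtain ⟨P', Q', hQ', h'⟩ := hg
  refine ⟨P * P', Q * Q', d.ndvd_mul hQ hQ', ?_⟩
  rw [map_mul (ι R) Q]
  calc f * g * (ι R Q * ι R Q') = (f * ι R Q) * (g * ι R Q') := by ring
    _ = ι R (d.s * P) * ι R P' := by rw [h, h']
    _ = ι R (d.s * (P * P')) := by rw [← map_mul]; congr 1; ring

theorem inO_mul {f g : FractionRing R} (hf : d.InO f) (hg : d.InO g) : d.InO (f * g) := by
  obtain ⟨P, Q, hQ, h⟩ := hf
  obtain ⟨P', Q', hQ', h'⟩ := hg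
  refine ⟨P * P', Q * Q', d.ndvd_mul hQ hQ', ?_⟩
  rw [map_mul (ι R) Q]
  calc f * g * (ι R Q * ι R Q') = (f * ι R Q) * (g * ι R Q') := by ring
    _ = ι R P * ι R P' := by rw [h, h']
    _ = ι R (P * P') := by rw [← map_mul]

/-- One-units. -/
def U1 (f : FractionRing R) : Prop := d.InM (f - 1)

theorem U1.toO {f : FractionRing R} (h : d.U1 f) : d.InO f := by
  have := d.inO_add (InM.toO d h) d.inO_one
  simpa using this

theorem u1_one : d.U1 1 := by
  show d.InM (1 - 1)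
  rw [sub_self]; exact d.inM_zero

theorem u1_ne {f : FractionRing R} (h : d.U1 f) : f ≠ 0 := by
  rintro rfl
  obtain ⟨P, Q, hQ, h⟩ := h
  have h1 : ι R (-Q) = ι R (d.s * P) := by rw [← h, map_neg]; ring
  have h2 := ι_inj.1 h1
  exact hQ ((dvd_neg).1 ⟨P, h2⟩)

theorem u1_mul {f g : FractionRing R} (hf : d.U1 f) (hg : d.U1 g) : d.U1 (f * g) := by
  have h1 := d.inM_mul hf (U1.toO d hg)
  have h2 := d.inM_add h1 hg
  have e : (f - 1) * g + (g - 1) = f * g - 1 := by ring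
  rw [e] at h2; exact h2

theorem u1_inv {f : FractionRing R} (hf : d.U1 f) : d.U1 f⁻¹ := by
  have hne := d.u1_ne hf
  obtain ⟨P, Q, hQ, h⟩ := hf
  refine ⟨-P, Q + d.s * P, ?_, ?_⟩
  · intro hd
    exact hQ ((dvd_add_left (dvd_mul_right _ _)).1 hd)
  · have h1 : f * ι R Q = ι R (Q + d.s * P) := by
      rw [map_add, ← h]; ring
    rw [← h1]
    have e : (f⁻¹ - 1) * (f * ι R Q) = (f⁻¹ * f) * ι R Q - f * ι R Q := by ring
    rw [e, inv_mul_cancel₀ hne, h1, one_mul, ← map_sub]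
    congr 1; ring

theorem u1_div {f g : FractionRing R} (hf : d.U1 f) (hg : d.U1 g) : d.U1 (f / g) := by
  rw [div_eq_mul_inv]; exact d.u1_mul hf (d.u1_inv hg)

theorem u1_two_sub {f : FractionRing R} (hf : d.U1 f) : d.U1 (2 - f) := by
  have := d.inM_neg hf
  have e : -(f - 1) = (2 - f) - 1 := by ring
  rw [e] at this; exact this

theorem u1_add_inM {f g : FractionRing R} (hf : d.U1 f) (hg : d.InM g) : d.U1 (f + g) := by
  have := d.inM_add hf hg
  have e : f - 1 + g = (f + g) - 1 := by ring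
  rw [e] at this; exact this

theorem inO_nat (n : ℕ) : d.InO (n : FractionRing R) :=
  ⟨n, 1, d.ndvd_one, by simp⟩

theorem nat_ndvd {n : ℕ} (hn : 0 < n) : ¬ d.s ∣ (n : R) := by
  intro h
  have h1 : IsUnit (n : R) := by
    have h2 : IsUnit (algebraMap ℚ R (n : ℚ)) :=
      (isUnit_iff_ne_zero.2 (Nat.cast_ne_zero.2 hn.ne')).map _
    simpa using h2
  exact d.prime.not_isUnit (isUnit_of_dvd_unit h h1)

theorem inO_nat_inv {n : ℕ} (hn : 0 < n) : d.InO ((n : FractionRing R)⁻¹) := by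
  refine ⟨1, n, d.nat_ndvd hn, ?_⟩
  have : (n : FractionRing R) ≠ 0 := by
    have := ι_ne (d.ndvd_ne (d.nat_ndvd hn))
    simpa using this
  simp [this]

include d in
theorem nat_ne {n : ℕ} (hn : 0 < n) : (n : FractionRing R) ≠ 0 := by
  have := ι_ne (d.ndvd_ne (d.nat_ndvd hn))
  simpa using this

/-- Elements congruent to a positive integer. -/
def UP (f : FractionRing R) : Prop := ∃ n : ℕ, 0 < n ∧ d.U1 (f / n)

theorem UP_of_U1 {f : FractionRing R} (h : d.U1 f) : d.UP f := ⟨1, one_pos, by simpa using h⟩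

theorem UP_ne {f : FractionRing R} (h : d.UP f) : f ≠ 0 := by
  obtain ⟨n, hn, h⟩ := h
  rintro rfl
  exact d.u1_ne h (by simp)

theorem UP.inM {f : FractionRing R} (h : d.UP f) : ∃ n : ℕ, 0 < n ∧ d.InM (f - n) := by
  obtain ⟨n, hn, h⟩ := h
  refine ⟨n, hn, ?_⟩
  have := d.inM_mul h (d.inO_nat n)
  have e : (f / n - 1) * n = f - n := by
    rw [sub_mul, div_mul_cancel₀ _ (d.nat_ne hn), one_mul]
  rw [e] at this; exact this

theorem UP_iff {f : FractionRing R} : d.UP f ↔ ∃ n : ℕ, 0 < n ∧ d.InM (f - n) := by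
  refine ⟨UP.inM d, ?_⟩
  rintro ⟨n, hn, h⟩
  refine ⟨n, hn, ?_⟩
  have := d.inM_mul h (d.inO_nat_inv hn)
  have e : (f - n) * (n : FractionRing R)⁻¹ = f / n - 1 := by
    rw [sub_mul, mul_inv_cancel₀ (d.nat_ne hn), div_eq_mul_inv]
  rw [e] at this; exact this

theorem UP.toO {f : FractionRing R} (h : d.UP f) : d.InO f := by
  obtain ⟨n, hn, h⟩ := UP.inM d h
  have := d.inO_add (InM.toO d h) (d.inO_nat n)
  simpa using this

theorem UP_add {f g : FractionRing R} (hf : d.UP f) (hg : d.UP g) : d.UP (f + g) := by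
  rw [UP_iff] at *
  obtain ⟨n, hn, h⟩ := hf
  obtain ⟨m, hm, h'⟩ := hg
  refine ⟨n + m, by omega, ?_⟩
  have := d.inM_add h h'
  have e : f - n + (g - m) = f + g - ((n + m : ℕ) : FractionRing R) := by push_cast; ring
  rw [e] at this; exact this

theorem UP_mul {f g : FractionRing R} (hf : d.UP f) (hg : d.UP g) : d.UP (f * g) := by
  obtain ⟨n, hn, h⟩ := hf
  obtain ⟨m, hm, h'⟩ := hg
  refine ⟨n * m, Nat.mul_pos hn hm, ?_⟩
  have := d.u1_mul h h'
  have e : f / n * (g / m) = f * g / ((n * m : ℕ) : FractionRing R) := by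
    push_cast; rw [div_mul_div_comm]
  rw [e] at this; exact this

theorem UP_add_inM {f g : FractionRing R} (hf : d.UP f) (hg : d.InM g) : d.UP (f + g) := by
  rw [UP_iff] at *
  obtain ⟨n, hn, h⟩ := hf
  refine ⟨n, hn, ?_⟩
  have := d.inM_add h hg
  have e : f - n + g = f + g - n := by ring
  rw [e] at this; exact this

/-! ### Positivity at the two points -/

/-- Functions defined and positive at the two points. -/
def Cp (f : FractionRing R) : Prop :=
  ∃ P Q : R, 0 < d.e₁ P ∧ 0 < d.e₂ P ∧ 0 < d.e₁ Q ∧ 0 < d.e₂ Q ∧ f * ι R Q = ι R P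

theorem e_ne {Q : R} (h : 0 < d.e₁ Q) : Q ≠ 0 := by
  rintro rfl; simp at h

theorem cp_one : d.Cp 1 := ⟨1, 1, by simp, by simp, by simp, by simp, by simp⟩

theorem cp_ne {f : FractionRing R} (h : d.Cp f) : f ≠ 0 := by
  rintro rfl
  obtain ⟨P, Q, h1, _, _, _, h⟩ := h
  rw [zero_mul, ← map_zero (ι R)] at h
  rw [← ι_inj.1 h] at h1
  simp at h1

theorem cp_add {f g : FractionRing R} (hf : d.Cp f) (hg : d.Cp g) : d.Cp (f + g) := by
  obtain ⟨P, Q, h1, h2, h3, h4, h⟩ := hf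
  obtain ⟨P', Q', h1', h2', h3', h4', h'⟩ := hg
  refine ⟨P * Q' + P' * Q, Q * Q', ?_, ?_, ?_, ?_, ?_⟩
  · simp only [map_add, map_mul]; positivity
  · simp only [map_add, map_mul]; positivity
  · simp only [map_mul]; positivity
  · simp only [map_mul]; positivity
  · rw [map_mul (ι R) Q]
    calc (f + g) * (ι R Q * ι R Q') = (f * ι R Q) * ι R Q' + (g * ι R Q') * ι R Q := by ring
      _ = ι R P * ι R Q' + ι R P' * ι R Q := by rw [h, h']
      _ = ι R (P * Q' + P' * Q) := by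
        rw [← map_mul, ← map_mul, ← map_add]

theorem cp_mul {f g : FractionRing R} (hf : d.Cp f) (hg : d.Cp g) : d.Cp (f * g) := by
  obtain ⟨P, Q, h1, h2, h3, h4, h⟩ := hf
  obtain ⟨P', Q', h1', h2', h3', h4', h'⟩ := hg
  refine ⟨P * P', Q * Q', ?_, ?_, ?_, ?_, ?_⟩
  · simp only [map_mul]; positivity
  · simp only [map_mul]; positivity
  · simp only [map_mul]; positivity
  · simp only [map_mul]; positivity
  · rw [map_mul (ι R) Q]
    calc f * g * (ι R Q * ι R Q') = (f * ι R Q) * (g * ι R Q') := by ring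
      _ = ι R P * ι R P' := by rw [h, h']
      _ = ι R (P * P') := by rw [← map_mul]

theorem cp_inv {f : FractionRing R} (hf : d.Cp f) : d.Cp f⁻¹ := by
  have hne := d.cp_ne hf
  obtain ⟨P, Q, h1, h2, h3, h4, h⟩ := hf
  refine ⟨Q, P, h3, h4, h1, h2, ?_⟩
  rw [← h, inv_mul_cancel_left₀ hne]

theorem cp_pt {f : FractionRing R} (hf : d.Cp f) (hf' : d.Cp (-f)) : False := by
  have := d.cp_ne (d.cp_add hf hf')
  simp at this

/-! ### The automorphism -/

/-- The induced automorphism of the fraction field. -/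
noncomputable def T : RingAut (FractionRing R) :=
  (IsFractionRing.ringEquivOfRingEquiv d.τ : FractionRing R ≃+* FractionRing R)

theorem T_ι (r : R) : d.T (ι R r) = ι R (d.τ r) :=
  IsFractionRing.ringEquivOfRingEquiv_algebraMap d.τ r

theorem s_dvd_τ {r : R} : d.s ∣ d.τ r ↔ d.s ∣ r := by
  constructor
  · intro h
    have h2 := d.τmod r
    have e : r = d.τ r - (d.τ r - r) := by ring
    rw [e]; exact dvd_sub h h2
  · intro h
    have h2 := d.τmod r
    have e : d.τ r = r + (d.τ r - r) := by ring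
    rw [e]; exact dvd_add h h2

theorem T_inM {f : FractionRing R} (h : d.InM f) : d.InM (d.T f) := by
  obtain ⟨P, Q, hQ, h⟩ := h
  refine ⟨d.τ P, d.τ Q, fun h' => hQ (d.s_dvd_τ.1 h'), ?_⟩
  rw [← d.T_ι, ← map_mul, h, d.T_ι, map_mul, d.τs]

theorem T_symm_ι (r : R) : d.T.symm (ι R r) = ι R (d.τ.symm r) := by
  rw [RingEquiv.symm_apply_eq, d.T_ι, RingEquiv.apply_symm_apply]

theorem τs_symm : d.τ.symm d.s = d.s := by
  rw [RingEquiv.symm_apply_eq, d.τs]

theorem T_symm_inM {f : FractionRing R} (h : d.InM f) : d.InM (d.T.symm f) := by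
  obtain ⟨P, Q, hQ, h⟩ := h
  refine ⟨d.τ.symm P, d.τ.symm Q, fun h' => hQ ?_, ?_⟩
  · have := d.s_dvd_τ.2 h'
    rwa [RingEquiv.apply_symm_apply] at this
  · rw [← d.T_symm_ι, ← map_mul, h, d.T_symm_ι, map_mul, d.τs_symm]

theorem T_u1 {f : FractionRing R} (h : d.U1 f) : d.U1 (d.T f) := by
  have := d.T_inM h
  rwa [map_sub, map_one] at this

theorem T_symm_u1 {f : FractionRing R} (h : d.U1 f) : d.U1 (d.T.symm f) := by
  have := d.T_symm_inM h
  rwa [map_sub, map_one] at this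

theorem T_cp {f : FractionRing R} (h : d.Cp f) : d.Cp (d.T f) := by
  obtain ⟨P, Q, h1, h2, h3, h4, h⟩ := h
  refine ⟨d.τ P, d.τ Q, by rwa [d.e₁τ], by rwa [d.e₂τ], by rwa [d.e₁τ], by rwa [d.e₂τ], ?_⟩
  rw [← d.T_ι, ← map_mul, h, d.T_ι]

theorem e₁τ_symm (r : R) : d.e₁ (d.τ.symm r) = d.e₂ r := by
  rw [← d.e₂τ (d.τ.symm r), RingEquiv.apply_symm_apply]

theorem e₂τ_symm (r : R) : d.e₂ (d.τ.symm r) = d.e₁ r := by
  rw [← d.e₁τ (d.τ.symm r), RingEquiv.apply_symm_apply]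

theorem T_symm_cp {f : FractionRing R} (h : d.Cp f) : d.Cp (d.T.symm f) := by
  obtain ⟨P, Q, h1, h2, h3, h4, h⟩ := h
  refine ⟨d.τ.symm P, d.τ.symm Q, by rwa [d.e₁τ_symm], by rwa [d.e₂τ_symm],
    by rwa [d.e₁τ_symm], by rwa [d.e₂τ_symm], ?_⟩
  rw [← d.T_symm_ι, ← map_mul, h, d.T_symm_ι]

/-- `T` acts unipotently. -/
theorem T_ratio {a : FractionRing R} (ha : a ≠ 0) : d.U1 (d.T a / a) := by
  -- first for elements of `R` prime to `s`
  have h1 : ∀ P : R, ¬ d.s ∣ P → d.U1 (d.T (ι R P) / ι R P) := by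
    intro P hP
    obtain ⟨P₁, hP₁⟩ := d.τmod P
    refine ⟨P₁, P, hP, ?_⟩
    rw [d.T_ι, ← hP₁, map_sub, sub_mul, div_mul_cancel₀ _ (ι_ne (d.ndvd_ne hP)), one_mul]
  have h2 : ∀ P : R, P ≠ 0 → d.U1 (d.T (ι R P) / ι R P) := by
    intro P hP
    obtain ⟨n, P₀, rfl, hP₀⟩ := d.fin P hP
    have := h1 P₀ hP₀
    have e : d.T (ι R (d.s ^ n * P₀)) / ι R (d.s ^ n * P₀) = d.T (ι R P₀) / ι R P₀ := by
      have hs : d.T (ι R (d.s ^ n)) = ι R (d.s ^ n) := by rw [d.T_ι, map_pow, d.τs]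
      rw [map_mul (ι R), map_mul, hs, mul_div_mul_left _ _ (ι_ne (pow_ne_zero n d.s_ne))]
    rw [e]; exact this
  obtain ⟨P, Q, hQ, rfl⟩ := IsFractionRing.div_surjective (A := R) a
  have hQ0 : Q ≠ 0 := nonZeroDivisors.ne_zero hQ
  have hP0 : P ≠ 0 := by
    rintro rfl; simp at ha
  have := d.u1_div (h2 P hP0) (h2 Q hQ0)
  have e : d.T (ι R P / ι R Q) / (ι R P / ι R Q) =
      (d.T (ι R P) / ι R P) / (d.T (ι R Q) / ι R Q) := by
    rw [map_div₀, div_div_div_comm]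
  rw [e]; exact this

theorem T_zpow_ratio (j : ℤ) {a : FractionRing R} (ha : a ≠ 0) : d.U1 ((d.T ^ j) a / a) := by
  induction j using Int.induction_on generalizing a with
  | zero => 
    rw [zpow_zero, RingAut.one_apply, div_self ha]
    exact d.u1_one
  | succ i ih =>
    have hne : d.T a ≠ 0 := (map_ne_zero d.T).2 ha
    have h1 := ih hne
    have h2 := d.T_ratio ha
    have := d.u1_mul h1 h2
    rw [div_mul_div_cancel₀ hne] at this
    rw [zpow_add_one]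
    exact this
  | pred i ih =>
    have hne : d.T⁻¹ a ≠ 0 := (map_ne_zero (d.T⁻¹ : RingAut _)).2 ha
    have h1 := ih hne
    have h2 := d.u1_inv (d.T_ratio hne)
    have e : d.T (d.T⁻¹ a) = a := RingEquiv.apply_symm_apply d.T a
    rw [e, inv_div] at h2
    have := d.u1_mul h1 h2
    rw [div_mul_div_cancel₀ hne] at this
    rw [zpow_sub_one]
    exact this

/-- Every element becomes small after multiplication by a power of `s`. -/
theorem exists_small (a : FractionRing R) : ∃ n : ℕ, d.InM (ι R d.s ^ n * a) := by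
  obtain ⟨P, Q, hQ, rfl⟩ := IsFractionRing.div_surjective (A := R) a
  have hQ0 : Q ≠ 0 := nonZeroDivisors.ne_zero hQ
  obtain ⟨n, Q₀, rfl, hQ₀⟩ := d.fin Q hQ0
  refine ⟨n + 1, P, Q₀, hQ₀, ?_⟩
  have h1 : ι R d.s ≠ 0 := ι_ne d.s_ne
  have h2 : ι R Q₀ ≠ 0 := ι_ne (d.ndvd_ne hQ₀)
  rw [map_mul, map_mul, map_pow]
  field_simp
  ring

/-! ### The group `B` -/

/-- The group of one-units positive at the two points. -/
def BB : Subgroup (FractionRing R)ˣ where
  carrier := {b | d.U1 (b : FractionRing R) ∧ d.Cp (b : FractionRing R)}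
  mul_mem' := by
    rintro a b ⟨h1, h2⟩ ⟨h1', h2'⟩
    exact ⟨by rw [Units.val_mul]; exact d.u1_mul h1 h1', by rw [Units.val_mul]; exact d.cp_mul h2 h2'⟩
  one_mem' := ⟨by rw [Units.val_one]; exact d.u1_one, by rw [Units.val_one]; exact d.cp_one⟩
  inv_mem' := by
    rintro a ⟨h1, h2⟩
    exact ⟨by rw [Units.val_inv_eq_inv_val]; exact d.u1_inv h1,
      by rw [Units.val_inv_eq_inv_val]; exact d.cp_inv h2⟩

theorem mem_BB (b : (FractionRing R)ˣ) :
    b ∈ d.BB ↔ d.U1 (b : FractionRing R) ∧ d.Cp (b : FractionRing R) := Iff.rfl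

/-- The value of an element of `B` in the field. -/
def bv (b : d.BB) : FractionRing R := ((b : (FractionRing R)ˣ) : FractionRing R)

theorem bv_u1 (b : d.BB) : d.U1 (d.bv b) := b.2.1
theorem bv_cp (b : d.BB) : d.Cp (d.bv b) := b.2.2
theorem bv_mul (a b : d.BB) : d.bv (a * b) = d.bv a * d.bv b := rfl
theorem bv_one : d.bv 1 = 1 := rfl
theorem bv_inv (b : d.BB) : d.bv b⁻¹ = (d.bv b)⁻¹ := by
  simp [bv]
theorem bv_inj {a b : d.BB} : d.bv a = d.bv b ↔ a = b := by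
  constructor
  · intro h; exact Subtype.ext (Units.ext h)
  · rintro rfl; rfl

/-- Construct an element of `B`. -/
noncomputable def mkB (f : FractionRing R) (h1 : d.U1 f) (h2 : d.Cp f) : d.BB :=
  ⟨Units.mk0 f (d.u1_ne h1), ⟨h1, h2⟩⟩

theorem bv_mkB (f : FractionRing R) (h1 : d.U1 f) (h2 : d.Cp f) : d.bv (d.mkB f h1 h2) = f := rfl

/-- The automorphism of `B` induced by `T`. -/
noncomputable def σ : MulAut d.BB where
  toFun b := d.mkB (d.T (d.bv b)) (d.T_u1 (d.bv_u1 b)) (d.T_cp (d.bv_cp b))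
  invFun b := d.mkB (d.T.symm (d.bv b)) (d.T_symm_u1 (d.bv_u1 b)) (d.T_symm_cp (d.bv_cp b))
  left_inv b := by
    rw [← d.bv_inj, bv_mkB, bv_mkB, RingEquiv.symm_apply_apply]
  right_inv b := by
    rw [← d.bv_inj, bv_mkB, bv_mkB, RingEquiv.apply_symm_apply]
  map_mul' a b := by
    rw [← d.bv_inj]
    simp only [bv_mkB, bv_mul, map_mul]

theorem bv_σ (b : d.BB) : d.bv (d.σ b) = d.T (d.bv b) := rfl

theorem bv_σ_inv (b : d.BB) : d.bv (d.σ⁻¹ b) = d.T⁻¹ (d.bv b) := rfl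

theorem bv_σ_zpow (j : ℤ) (b : d.BB) : d.bv ((d.σ ^ j) b) = (d.T ^ j) (d.bv b) := by
  induction j using Int.induction_on generalizing b with
  | zero => rw [zpow_zero, zpow_zero]; rfl
  | succ i ih => rw [zpow_add_one, zpow_add_one, MulAut.mul_apply, ih, bv_σ]; rfl
  | pred i ih => rw [zpow_sub_one, zpow_sub_one, MulAut.mul_apply, ih, bv_σ_inv]; rfl

/-- Torsion-freeness of `B` under the semiring generated by `σ ^ j` and `2 - σ ^ j`. -/
theorem B_tf (w : AddMonoid.End (Additive d.BB)) (hw : Gen (opsB d.σ) w) :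
    ∀ b : Additive d.BB, ∃ ψ, d.UP ψ ∧
      d.bv (w b).toMul - 1 = (d.bv b.toMul - 1) * ψ := by
  have hbase : ∀ (j : ℤ) (b : d.BB), ∃ ψ, d.U1 ψ ∧
      (d.T ^ j) (d.bv b) - 1 = (d.bv b - 1) * ψ := by
    intro j b
    by_cases h : d.bv b - 1 = 0
    · refine ⟨1, d.u1_one, ?_⟩
      have : d.bv b = 1 := sub_eq_zero.1 h
      rw [this, map_one]; ring
    · refine ⟨_, d.T_zpow_ratio j h, ?_⟩
      rw [mul_div_cancel₀ _ h, map_sub, map_one]
  induction hw with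
  | base w hw =>
    intro b
    obtain ⟨j, rfl | rfl⟩ := hw
    · obtain ⟨ψ, h1, h2⟩ := hbase j b.toMul
      refine ⟨ψ, d.UP_of_U1 h1, ?_⟩
      rw [← h2, ← d.bv_σ_zpow]; rfl
    · obtain ⟨ψ, h1, h2⟩ := hbase j b.toMul
      set δ := d.bv b.toMul - 1 with hδ
      have hδM : d.InM δ := d.bv_u1 b.toMul
      have hTb : (d.T ^ j) (d.bv b.toMul) = 1 + δ * ψ := by rw [← h2]; ring
      have hu : d.U1 (1 + δ * ψ) := d.u1_add_inM d.u1_one (d.inM_mul hδM (U1.toO d h1))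
      refine ⟨(2 - ψ + δ) / (1 + δ * ψ), d.UP_of_U1 (d.u1_div
        (d.u1_add_inM (d.u1_two_sub h1) hδM) hu), ?_⟩
      have e : d.bv ((1 + 1 - opM (d.σ ^ j)) b).toMul =
          (d.bv b.toMul * d.bv b.toMul) * ((d.T ^ j) (d.bv b.toMul))⁻¹ := by
        rw [← d.bv_σ_zpow, ← d.bv_inv, ← d.bv_mul, ← d.bv_mul]
        rw [d.bv_inj]
        show b.toMul * b.toMul / ((d.σ ^ j) b.toMul) = _
        rw [div_eq_mul_inv]
      rw [e, hTb]
      have hb : d.bv b.toMul = 1 + δ := by rw [hδ]; ring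
      rw [hb]
      have hne : 1 + δ * ψ ≠ 0 := d.u1_ne hu
      field_simp
      ring
  | add w w' _ _ ih ih' =>
    intro b
    obtain ⟨ψ, h1, h2⟩ := ih b
    obtain ⟨ψ', h1', h2'⟩ := ih' b
    set δ := d.bv b.toMul - 1 with hδ
    have hδM : d.InM δ := d.bv_u1 b.toMul
    refine ⟨ψ + ψ' + δ * (ψ * ψ'), d.UP_add_inM (d.UP_add h1 h1')
      (d.inM_mul hδM (d.inO_mul (UP.toO d h1) (UP.toO d h1'))), ?_⟩
    have e : d.bv ((w + w') b).toMul = d.bv (w b).toMul * d.bv (w' b).toMul := rfl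
    have e1 : d.bv (w b).toMul = 1 + δ * ψ := by rw [← h2]; ring
    have e2 : d.bv (w' b).toMul = 1 + δ * ψ' := by rw [← h2']; ring
    rw [e, e1, e2]; ring
  | mul w w' _ _ ih ih' =>
    intro b
    obtain ⟨ψ', h1', h2'⟩ := ih' b
    obtain ⟨ψ, h1, h2⟩ := ih (w' b)
    refine ⟨ψ' * ψ, d.UP_mul h1' h1, ?_⟩
    rw [end_mul_apply, h2, h2', mul_assoc]

theorem wstar_H : WStar (HG d.σ) := by
  apply wstar_HG
  intro b hb w hw h
  obtain ⟨ψ, h1, h2⟩ := d.B_tf w hw b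
  rw [h] at h2
  have h3 : d.bv (Additive.toMul (0 : Additive d.BB)) = 1 := rfl
  rw [h3, sub_self] at h2
  rcases mul_eq_zero.1 h2.symm with h4 | h4
  · apply hb
    have : d.bv b.toMul = d.bv 1 := by rw [bv_one]; exact sub_eq_zero.1 h4
    exact d.bv_inj.1 this
  · exact d.UP_ne h1 h4

end Dat

end Pool.Agent.Lib.MP_79a327_al
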