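import Pool.Agent.Lib.MP_79a327_al.Field

set_option autoImplicit false

namespace Pool.Agent.Lib.MP_79a327_al

open SemidirectProduct

namespace Dat

variable {R : Type} [CommRing R] [IsDomain R] [Algebra ℚ R] (d : Dat R)

/-- Field automorphisms acting on the additive group. -/
noncomputable def fgHom (R : Type) [CommRing R] [IsDomain R] :
    RingAut (FractionRing R) →* MulAut (Multiplicative (FractionRing R)) where
  toFun t := AddEquiv.toMultiplicative t.toAddEquiv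
  map_one' := rfl
  map_mul' _ _ := rfl

/-- Multiplication by elements of `B`. -/
noncomputable def fnHom : d.BB →* MulAut (Multiplicative (FractionRing R)) where
  toFun b :=
    { toFun := fun a => Multiplicative.ofAdd (d.bv b * a.toAdd)
      invFun := fun a => Multiplicative.ofAdd ((d.bv b)⁻¹ * a.toAdd)
      left_inv := fun a => by
        show Multiplicative.ofAdd ((d.bv b)⁻¹ * (d.bv b * a.toAdd)) = a
        rw [inv_mul_cancel_left₀ (d.u1_ne (d.bv_u1 b))]; rfl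
      right_inv := fun a => by
        show Multiplicative.ofAdd (d.bv b * ((d.bv b)⁻¹ * a.toAdd)) = a
        rw [mul_inv_cancel_left₀ (d.u1_ne (d.bv_u1 b))]; rfl
      map_mul' := fun a a' => by
        show Multiplicative.ofAdd (d.bv b * (a.toAdd + a'.toAdd)) = _
        rw [mul_add]; rfl }
  map_one' := by
    ext a
    show Multiplicative.ofAdd (d.bv 1 * a.toAdd) = a
    rw [bv_one, one_mul]; rfl
  map_mul' b b' := by
    ext a
    show Multiplicative.ofAdd (d.bv (b * b') * a.toAdd) =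
      Multiplicative.ofAdd (d.bv b * (d.bv b' * a.toAdd))
    rw [bv_mul, mul_assoc]

theorem fnHom_apply (b : d.BB) (a : FractionRing R) :
    (d.fnHom b (Multiplicative.ofAdd a)).toAdd = d.bv b * a := rfl

omit [Algebra ℚ R] in
theorem fgHom_apply (t : RingAut (FractionRing R)) (a : FractionRing R) :
    (fgHom R t (Multiplicative.ofAdd a)).toAdd = t a := rfl

/-- The action of `H = B ⋊ ℤ` on the additive group of the field. -/
noncomputable def φ : HG d.σ →* MulAut (Multiplicative (FractionRing R)) where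
  toFun h := d.fnHom h.left * fgHom R (d.T ^ h.right.toAdd)
  map_one' := by
    show d.fnHom 1 * fgHom R (d.T ^ (0 : ℤ)) = 1
    rw [map_one, zpow_zero, map_one, one_mul]
  map_mul' h h' := by
    ext a
    have key : d.bv (h.left * (d.σ ^ h.right.toAdd) h'.left) *
      (d.T ^ (h.right.toAdd + h'.right.toAdd)) a.toAdd =
      d.bv h.left * (d.T ^ h.right.toAdd) (d.bv h'.left *
        (d.T ^ h'.right.toAdd) a.toAdd) := by
      rw [bv_mul, bv_σ_zpow, zpow_add, map_mul (d.T ^ h.right.toAdd) (d.bv h'.left), mul_assoc]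
      rfl
    exact congrArg Multiplicative.ofAdd key

theorem opA_φ (h : HG d.σ) (a : FractionRing R) :
    opA d.φ h a = d.bv h.left * (d.T ^ h.right.toAdd) a := rfl

/-- Multiplication operators. -/
noncomputable def mL (f : FractionRing R) : AddMonoid.End (FractionRing R) := AddMonoidHom.mulLeft f

omit [IsDomain R] [Algebra ℚ R] in
theorem mL_apply (f a : FractionRing R) : mL f a = f * a := rfl

/-- The semiring generated by `B` and `2 - B`. -/
inductive WB : FractionRing R → Prop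
  | bas (b : d.BB) : WB (d.bv b)
  | two (b : d.BB) : WB (2 - d.bv b)
  | add (f g : FractionRing R) : WB f → WB g → WB (f + g)
  | mul (f g : FractionRing R) : WB f → WB g → WB (f * g)

theorem WB_UP {f : FractionRing R} (h : d.WB f) : d.UP f := by
  induction h with
  | bas b => exact d.UP_of_U1 (d.bv_u1 b)
  | two b => exact d.UP_of_U1 (d.u1_two_sub (d.bv_u1 b))
  | add f g _ _ ih ih' => exact d.UP_add ih ih'
  | mul f g _ _ ih ih' => exact d.UP_mul ih ih'

theorem WB_ne {f : FractionRing R} (h : d.WB f) : f ≠ 0 := d.UP_ne (d.WB_UP h)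

theorem WB_nat {f : FractionRing R} (h : d.WB f) (n : ℕ) : d.WB (((n + 1 : ℕ) : FractionRing R) * f) := by
  induction n with
  | zero => simpa using h
  | succ n ih =>
    have := WB.add _ _ ih h
    have e : ((n + 1 : ℕ) : FractionRing R) * f + f = ((n + 1 + 1 : ℕ) : FractionRing R) * f := by
      push_cast; ring
    rw [e] at this; exact this

theorem WB_Gen {f : FractionRing R} (h : d.WB f) :
    Gen (opsA d.φ) (mL f) := by
  induction h with
  | bas b =>
    refine Gen.base _ ⟨inl b, Or.inl ?_⟩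
    ext a
    show d.bv b * a = opA d.φ (inl b) a
    rw [opA_φ]
    simp
  | two b =>
    refine Gen.base _ ⟨inl b, Or.inr ?_⟩
    ext a
    show (2 - d.bv b) * a = a + a - opA d.φ (inl b) a
    rw [opA_φ]
    simp
    ring
  | add f g _ _ ih ih' =>
    have := Gen.add _ _ ih ih'
    have e : mL (f + g) =
        (mL f) +
        (mL g) := by
      ext a
      show (f + g) * a = f * a + g * a
      ring
    rw [e]; exact this
  | mul f g _ _ ih ih' =>
    have := Gen.mul _ _ ih ih'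
    have e : mL (f * g) =
        (mL f) *
        (mL g) := by
      ext a
      show (f * g) * a = f * (g * a)
      ring
    rw [e]; exact this

/-- A one-unit which is regular at the two points lies in `WB`. -/
theorem WB_of_regular {f : FractionRing R} (hf : d.U1 f) (A Q : R) (h1 : 0 < d.e₁ Q)
    (h2 : 0 < d.e₂ Q) (h : f * ι R Q = ι R A) : d.WB f := by
  obtain ⟨N, hN⟩ := exists_nat_gt (max (d.e₁ A / d.e₁ Q) (d.e₂ A / d.e₂ Q))
  have hN1 : d.e₁ A < N * d.e₁ Q := by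
    have := lt_of_le_of_lt (le_max_left _ _) hN
    rwa [div_lt_iff₀ h1] at this
  have hN2 : d.e₂ A < N * d.e₂ Q := by
    have := lt_of_le_of_lt (le_max_right _ _) hN
    rwa [div_lt_iff₀ h2] at this
  set M : FractionRing R := 1 + N * ι R d.s with hM
  have hsM : d.InM (ι R d.s) := ⟨1, 1, d.ndvd_one, by simp⟩
  have hMu : d.U1 M := d.u1_add_inM d.u1_one (by
    have := d.inM_mul hsM (d.inO_nat N)
    rwa [mul_comm] at this)
  have hMι : M = ι R (1 + N * d.s) := by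
    rw [hM, map_add, map_one, map_mul, map_natCast]
  have hMc : d.Cp M := by
    refine ⟨1 + N * d.s, 1, ?_, ?_, by simp, by simp, by rw [hMι, map_one, mul_one]⟩
    · simp only [map_add, map_one, map_mul, map_natCast, d.e₁s]; positivity
    · simp only [map_add, map_one, map_mul, map_natCast, d.e₂s]; positivity
  have hMne : M ≠ 0 := d.u1_ne hMu
  -- `b' = 2 - f / M`
  have hb'u : d.U1 (2 - f / M) := d.u1_two_sub (d.u1_div hf hMu)
  have hb'c : d.Cp (2 - f / M) := by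
    refine ⟨2 * Q * (1 + N * d.s) - A, Q * (1 + N * d.s), ?_, ?_, ?_, ?_, ?_⟩
    · simp only [map_sub, map_add, map_one, map_mul, map_natCast, d.e₁s, map_ofNat]
      nlinarith
    · simp only [map_sub, map_add, map_one, map_mul, map_natCast, d.e₂s, map_ofNat]
      nlinarith
    · simp only [map_add, map_one, map_mul, map_natCast, d.e₁s]; positivity
    · simp only [map_add, map_one, map_mul, map_natCast, d.e₂s]; positivity
    · have e1 : ι R (2 * Q * (1 + N * d.s) - A) = 2 * ι R Q * M - f * ι R Q := by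
        rw [map_sub, map_mul, map_mul, ← hMι, h, map_ofNat]
      have e2 : ι R (Q * (1 + N * d.s)) = ι R Q * M := by rw [map_mul, ← hMι]
      rw [e1, e2]
      field_simp
  have hw : d.WB (2 - (2 - f / M)) := by
    have := WB.two (d := d) (d.mkB _ hb'u hb'c)
    rwa [bv_mkB] at this
  have hw' := WB.mul _ _ hw (WB.bas (d := d) (d.mkB _ hMu hMc))
  rw [bv_mkB] at hw'
  have e : (2 - (2 - f / M)) * M = f := by field_simp; ring
  rw [e] at hw'; exact hw'

/-- Every one-unit is a ratio of elements of `WB`. -/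
theorem WB_ratio {f : FractionRing R} (hf : d.U1 f) : ∃ p q, d.WB p ∧ d.WB q ∧ f * q = p := by
  obtain ⟨P, Q, hQ, h⟩ := hf
  obtain ⟨κ, hκ⟩ := exists_nat_gt (max (-d.e₁ Q) (-d.e₂ Q))
  have hκ1 : -d.e₁ Q < κ := lt_of_le_of_lt (le_max_left _ _) hκ
  have hκ2 : -d.e₂ Q < κ := lt_of_le_of_lt (le_max_right _ _) hκ
  set Q₁ : R := Q + d.s * κ with hQ₁
  have hQ₁n : ¬ d.s ∣ Q₁ := by
    intro hd; exact hQ ((dvd_add_left (dvd_mul_right _ _)).1 hd)
  have e1 : 0 < d.e₁ Q₁ := by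
    rw [hQ₁]; simp only [map_add, map_mul, map_natCast, d.e₁s]; linarith
  have e2 : 0 < d.e₂ Q₁ := by
    rw [hQ₁]; simp only [map_add, map_mul, map_natCast, d.e₂s]; linarith
  have hQne : ι R Q₁ ≠ 0 := ι_ne (d.ndvd_ne hQ₁n)
  have hfQ : f * ι R Q = ι R (Q + d.s * P) := by
    rw [map_add, ← h]; ring
  have hq : d.U1 (ι R Q / ι R Q₁) := by
    refine ⟨-κ, Q₁, hQ₁n, ?_⟩
    rw [sub_mul, div_mul_cancel₀ _ hQne, one_mul, ← map_sub]
    congr 1; rw [hQ₁]; ring
  have hp : d.U1 (ι R (Q + d.s * P) / ι R Q₁) := by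
    refine ⟨P - κ, Q₁, hQ₁n, ?_⟩
    rw [sub_mul, div_mul_cancel₀ _ hQne, one_mul, ← map_sub]
    congr 1; rw [hQ₁]; ring
  refine ⟨ι R (Q + d.s * P) / ι R Q₁, ι R Q / ι R Q₁,
    d.WB_of_regular hp _ Q₁ e1 e2 (div_mul_cancel₀ _ hQne),
    d.WB_of_regular hq _ Q₁ e1 e2 (div_mul_cancel₀ _ hQne), ?_⟩
  rw [← hfQ, mul_div_assoc]

theorem WB_ratio' {f : FractionRing R} (hf : d.UP f) : ∃ p q, d.WB p ∧ d.WB q ∧ f * q = p := by
  obtain ⟨n, hn, h⟩ := hf
  obtain ⟨p, q, hp, hq, hpq⟩ := d.WB_ratio h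
  obtain ⟨m, rfl⟩ : ∃ m, n = m + 1 := ⟨n - 1, by omega⟩
  refine ⟨((m + 1 : ℕ) : FractionRing R) * p, q, d.WB_nat hp m, hq, ?_⟩
  rw [← hpq]
  have := d.nat_ne hn
  field_simp

/-- Operators act by multiplication by elements congruent to positive integers. -/
theorem Gen_act (w : AddMonoid.End (FractionRing R)) (hw : Gen (opsA d.φ) w) :
    ∀ a : FractionRing R, a ≠ 0 → ∃ ψ, d.UP ψ ∧ w a = a * ψ := by
  have hbase : ∀ (h : HG d.σ) (a : FractionRing R), a ≠ 0 → ∃ ψ, d.U1 ψ ∧ opA d.φ h a = a * ψ := by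
    intro h a ha
    refine ⟨d.bv h.left * ((d.T ^ h.right.toAdd) a / a),
      d.u1_mul (d.bv_u1 _) (d.T_zpow_ratio _ ha), ?_⟩
    rw [opA_φ]; field_simp
  induction hw with
  | base w hw =>
    intro a ha
    obtain ⟨h, rfl | rfl⟩ := hw
    · obtain ⟨ψ, h1, h2⟩ := hbase h a ha
      exact ⟨ψ, d.UP_of_U1 h1, h2⟩
    · obtain ⟨ψ, h1, h2⟩ := hbase h a ha
      refine ⟨2 - ψ, d.UP_of_U1 (d.u1_two_sub h1), ?_⟩
      show a + a - opA d.φ h a = _
      rw [h2]; ring
  | add w w' _ _ ih ih' =>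
    intro a ha
    obtain ⟨ψ, h1, h2⟩ := ih a ha
    obtain ⟨ψ', h1', h2'⟩ := ih' a ha
    exact ⟨ψ + ψ', d.UP_add h1 h1', by rw [end_add_apply, h2, h2']; ring⟩
  | mul w w' _ _ ih ih' =>
    intro a ha
    obtain ⟨ψ', h1', h2'⟩ := ih' a ha
    have hne : a * ψ' ≠ 0 := mul_ne_zero ha (d.UP_ne h1')
    obtain ⟨ψ, h1, h2⟩ := ih _ hne
    exact ⟨ψ' * ψ, d.UP_mul h1' h1, by rw [end_mul_apply, h2', h2, mul_assoc]⟩

theorem ore (a : FractionRing R) (ha : a ≠ 0) (w₁ w₂ : AddMonoid.End (FractionRing R))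
    (hw₁ : Gen (opsA d.φ) w₁) (hw₂ : Gen (opsA d.φ) w₂) :
    ∃ w₁' w₂', Gen (opsA d.φ) w₁' ∧ Gen (opsA d.φ) w₂' ∧ w₁' (w₁ a) = w₂' (w₂ a) ∧
      w₁' (w₁ a) ≠ 0 := by
  obtain ⟨ψ₁, h1, h2⟩ := d.Gen_act w₁ hw₁ a ha
  obtain ⟨ψ₂, h1', h2'⟩ := d.Gen_act w₂ hw₂ a ha
  obtain ⟨p₁, q₁, hp₁, hq₁, e₁⟩ := d.WB_ratio' h1
  obtain ⟨p₂, q₂, hp₂, hq₂, e₂⟩ := d.WB_ratio' h1'
  refine ⟨_, _, d.WB_Gen (WB.mul _ _ hq₁ hp₂), d.WB_Gen (WB.mul _ _ hq₂ hp₁), ?_, ?_⟩
  · show q₁ * p₂ * (w₁ a) = q₂ * p₁ * (w₂ a)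
    rw [h2, h2', ← e₁, ← e₂]; ring
  · show q₁ * p₂ * (w₁ a) ≠ 0
    rw [h2]
    exact mul_ne_zero (mul_ne_zero (d.WB_ne hq₁) (d.WB_ne hp₂)) (mul_ne_zero ha (d.UP_ne h1))

theorem T_x_ne : d.T (ι R d.x) ≠ ι R d.x := by
  rw [d.T_ι]
  intro h
  have h1 := ι_inj.1 h
  have h2 := d.e₁τ d.x
  rw [h1, d.e₁x, d.e₂x] at h2
  norm_num at h2

/-- Nonzero powers of `T` move `x`. -/
theorem T_pow_x (n : ℕ) : ∀ a : FractionRing R, d.T a ≠ a → ∃ ψ, d.UP ψ ∧
    (d.T ^ (n + 1)) a - a = (d.T a - a) * ψ := by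
  intro a ha
  induction n with
  | zero => exact ⟨1, d.UP_of_U1 d.u1_one, by simp⟩
  | succ n ih =>
    obtain ⟨ψ, h1, h2⟩ := ih
    have hne : d.T a - a ≠ 0 := sub_ne_zero.2 ha
    have h3 := d.T_zpow_ratio ((n + 1 : ℕ) : ℤ) hne
    refine ⟨ψ + (d.T ^ ((n + 1 : ℕ) : ℤ)) (d.T a - a) / (d.T a - a),
      d.UP_add h1 (d.UP_of_U1 h3), ?_⟩
    rw [mul_add, ← h2, mul_div_cancel₀ _ hne, zpow_natCast, map_sub]
    rw [pow_succ (d.T) (n + 1)]
    show (d.T ^ (n + 1)) (d.T a) - a = _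
    ring

theorem T_zpow_x {j : ℤ} (hj : j ≠ 0) : ∃ a : FractionRing R, (d.T ^ j) a ≠ a := by
  have hnat : ∀ n : ℕ, (d.T ^ (n + 1)) (ι R d.x) ≠ ι R d.x := by
    intro n h
    obtain ⟨ψ, h1, h2⟩ := d.T_pow_x n _ d.T_x_ne
    rw [h, sub_self] at h2
    exact mul_ne_zero (sub_ne_zero.2 d.T_x_ne) (d.UP_ne h1) h2.symm
  refine ⟨ι R d.x, ?_⟩
  intro h
  rcases Int.natAbs_eq j with hj' | hj'
  · obtain ⟨m, hm⟩ : ∃ m, j.natAbs = m + 1 := ⟨j.natAbs - 1, by omega⟩
    rw [hj', hm, zpow_natCast] at h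
    exact hnat m h
  · obtain ⟨m, hm⟩ : ∃ m, j.natAbs = m + 1 := ⟨j.natAbs - 1, by omega⟩
    rw [hj', hm, zpow_neg, zpow_natCast] at h
    apply hnat m
    have h2 := congrArg (d.T ^ (m + 1)) h
    have h3 : (d.T ^ (m + 1)) ((d.T ^ (m + 1))⁻¹ (ι R d.x)) = ι R d.x :=
      RingEquiv.apply_symm_apply (d.T ^ (m + 1)) _
    rw [h3] at h2
    exact h2.symm

/-- Nontrivial elements of `H` act nontrivially. -/
theorem act_ne (h : HG d.σ) (hne : h ≠ 1) : ∃ a, opA d.φ h a - a ≠ 0 := by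
  by_cases hb : h.left = 1
  · have hj : h.right.toAdd ≠ 0 := by
      intro h0
      apply hne
      apply SemidirectProduct.ext
      · exact hb
      · exact h0
    obtain ⟨a, ha⟩ := d.T_zpow_x hj
    refine ⟨a, ?_⟩
    rw [opA_φ, hb, bv_one, one_mul]
    exact sub_ne_zero.2 ha
  · refine ⟨1, ?_⟩
    rw [opA_φ, map_one, mul_one]
    intro h0
    apply hb
    rw [← d.bv_inj, bv_one]
    exact sub_eq_zero.1 h0

theorem T_zpow_s (j : ℤ) (n : ℕ) : (d.T ^ j) ((ι R d.s ^ n)⁻¹) = (ι R d.s ^ n)⁻¹ := by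
  have h1 : d.T (ι R d.s) = ι R d.s := by rw [d.T_ι, d.τs]
  have h2 : (d.T ^ j) (ι R d.s) = ι R d.s := by
    induction j using Int.induction_on with
    | zero => rfl
    | succ i ih => rw [zpow_add_one]; show (d.T ^ (i : ℤ)) (d.T (ι R d.s)) = _; rw [h1, ih]
    | pred i ih =>
      rw [zpow_sub_one]
      show (d.T ^ (-(i : ℤ))) (d.T⁻¹ (ι R d.s)) = _
      have : d.T⁻¹ (ι R d.s) = ι R d.s := by
        have h3 : d.T.symm (d.T (ι R d.s)) = ι R d.s := RingEquiv.symm_apply_apply d.T _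
        rw [h1] at h3; exact h3
      rw [this, ih]
  rw [map_inv₀, map_pow, h2]

/-- The decoupling property. -/
theorem dec (C : Set (FractionRing R)) (hC : Cone (opsA d.φ) C) (h : HG d.σ) (hne : h ≠ 1)
    (c : FractionRing R) : ¬ ∀ a : FractionRing R, c + (opA d.φ h a - a) ∈ C := by
  intro hall
  obtain ⟨a₀, ha₀⟩ := d.act_ne h hne
  set d₀ := opA d.φ h a₀ - a₀ with hd₀
  obtain ⟨n, hn⟩ := d.exists_small (c / d₀)
  have hs : ι R d.s ^ n ≠ 0 := pow_ne_zero _ (ι_ne d.s_ne)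
  set a₁ := (ι R d.s ^ n)⁻¹ * a₀ with ha₁
  have hd₁ : opA d.φ h a₁ - a₁ = (ι R d.s ^ n)⁻¹ * d₀ := by
    rw [hd₀, ha₁, opA_φ, opA_φ, map_mul, d.T_zpow_s]; ring
  set r := ι R d.s ^ n * (c / d₀) with hr
  set d₁ := opA d.φ h a₁ - a₁ with hd₁'
  have hd₁ne : d₁ ≠ 0 := by rw [hd₁]; exact mul_ne_zero (inv_ne_zero hs) ha₀
  have hcr : c = r * d₁ := by
    rw [hr, hd₁]; field_simp
  have h1 : c + d₁ ∈ C := hall a₁
  have h2 : c - d₁ ∈ C := by
    have := hall (-a₁)
    rw [map_neg] at this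
    have e : c + (-opA d.φ h a₁ - -a₁) = c - d₁ := by rw [hd₁']; ring
    rw [e] at this; exact this
  have hu1 : d.U1 (1 + r) := d.u1_add_inM d.u1_one hn
  have hu2 : d.U1 (1 - r) := by
    rw [sub_eq_add_neg]; exact d.u1_add_inM d.u1_one (d.inM_neg hn)
  obtain ⟨p₁, q₁, hp₁, hq₁, e₁⟩ := d.WB_ratio hu1
  obtain ⟨p₂, q₂, hp₂, hq₂, e₂⟩ := d.WB_ratio hu2
  have h3 : (q₁ * p₂) * (c + d₁) ∈ C :=
    hC.act_gen (d.WB_Gen (WB.mul _ _ hq₁ hp₂)) _ h1
  have h4 : (p₁ * q₂) * (c - d₁) ∈ C :=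
    hC.act_gen (d.WB_Gen (WB.mul _ _ hp₁ hq₂)) _ h2
  have h5 : (p₁ * q₂) * (c - d₁) = -((q₁ * p₂) * (c + d₁)) := by
    rw [← e₁, ← e₂, hcr]; ring
  rw [h5] at h4
  have h6 := hC.pt _ h3 h4
  rcases mul_eq_zero.1 h6 with h7 | h7
  · exact mul_ne_zero (d.WB_ne hq₁) (d.WB_ne hp₂) h7
  · have h8 : (1 + r) * d₁ = 0 := by rw [← h7, hcr]; ring
    exact mul_ne_zero (d.u1_ne hu1) hd₁ne h8

/-- The group of the construction lies in the class `W*`. -/
theorem wstar : WStar (GG d.φ) := wstar_G d.φ d.wstar_H d.ore d.dec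

/-- The partial order given by positivity at the two points. -/
def bad : Set (GG d.φ) := {g | ∃ a : FractionRing R, (a = 0 ∨ d.Cp a) ∧
  g = inl (Multiplicative.ofAdd a)}

theorem T_zpow_cp (j : ℤ) {a : FractionRing R} (ha : d.Cp a) : d.Cp ((d.T ^ j) a) := by
  induction j using Int.induction_on generalizing a with
  | zero => exact ha
  | succ i ih => rw [zpow_add_one]; exact ih (d.T_cp ha)
  | pred i ih => rw [zpow_sub_one]; exact ih (d.T_symm_cp ha)

theorem bad_PO : PO d.bad := by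
  refine ⟨⟨0, Or.inl rfl, by rw [ofAdd_zero, map_one]⟩, ?_, ?_, ?_⟩
  · rintro _ ⟨a, ha, rfl⟩ _ ⟨b, hb, rfl⟩
    refine ⟨a + b, ?_, by rw [ofAdd_add, map_mul]⟩
    rcases ha with rfl | ha
    · rcases hb with rfl | hb
      · left; simp
      · right; simpa using hb
    · rcases hb with rfl | hb
      · right; simpa using ha
      · right; exact d.cp_add ha hb
  · rintro _ ⟨a, ha, rfl⟩ ⟨b, hb, h⟩
    have h' : (inl (Multiplicative.ofAdd (-a)) : GG d.φ) = inl (Multiplicative.ofAdd b) := by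
      rw [← h, ← map_inv]; rfl
    have h2 : Multiplicative.ofAdd (-a) = Multiplicative.ofAdd b := inl_injective h'
    have h3 : -a = b := h2
    rcases ha with rfl | ha
    · rw [ofAdd_zero, map_one]
    · rcases hb with hb | hb
      · exfalso
        rw [hb, neg_eq_zero] at h3
        exact d.cp_ne ha h3
      · exfalso
        exact d.cp_pt ha (by rw [h3]; exact hb)
  · rintro _ ⟨a, ha, rfl⟩ x
    refine ⟨opA d.φ x.right⁻¹ a, ?_, conj_inl _ x _⟩
    rcases ha with rfl | ha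
    · left; rw [map_zero]
    · right
      rw [opA_φ]
      exact d.cp_mul (d.bv_cp _) (d.T_zpow_cp _ ha)

theorem bad_ext (Q : Set (GG d.φ)) (hPQ : d.bad ⊆ Q) (hQ : PO Q) : ¬ Tot Q := by
  intro hT
  -- the test function
  set a : FractionRing R := ι R (algebraMap ℚ R (1/4) + algebraMap ℚ R (3/4) * d.x) with ha
  set β : R := 1 + d.s * (algebraMap ℚ R (9/8) + algebraMap ℚ R (15/8) * d.x) with hβ
  have hq₁ : ∀ q : ℚ, d.e₁ (algebraMap ℚ R q) = q := fun q => by
    have := RingHom.congr_fun (Subsingleton.elim (d.e₁.comp (algebraMap ℚ R)) (RingHom.id ℚ)) q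
    exact this
  have hq₂ : ∀ q : ℚ, d.e₂ (algebraMap ℚ R q) = q := fun q => by
    have := RingHom.congr_fun (Subsingleton.elim (d.e₂.comp (algebraMap ℚ R)) (RingHom.id ℚ)) q
    exact this
  have hβ1 : d.e₁ β = 4 := by
    rw [hβ]; simp only [map_add, map_mul, map_one, hq₁, d.e₁s, d.e₁x]; norm_num
  have hβ2 : d.e₂ β = 1/4 := by
    rw [hβ]; simp only [map_add, map_mul, map_one, hq₂, d.e₂s, d.e₂x]; norm_num
  have hβu : d.U1 (ι R β) := by
    refine ⟨algebraMap ℚ R (9/8) + algebraMap ℚ R (15/8) * d.x, 1, d.ndvd_one, ?_⟩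
    rw [map_one, mul_one, hβ, map_add, map_one]; ring
  have hβc : d.Cp (ι R β) := ⟨β, 1, by rw [hβ1]; norm_num, by rw [hβ2]; norm_num, by simp, by simp,
    by rw [map_one, mul_one]⟩
  set b₀ := d.mkB (ι R β) hβu hβc with hb₀
  -- the two conjugates
  have hc1 : ∀ a : FractionRing R, (inl (Multiplicative.ofAdd a) : GG d.φ) ∈ Q →
      (inl (Multiplicative.ofAdd (d.T a)) : GG d.φ) ∈ Q := by
    intro a h
    have := hQ.conj _ h (inr (inr (Multiplicative.ofAdd (-1))))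
    rw [conj_inl, right_inr, ← map_inv] at this
    have e : d.φ (inr (Multiplicative.ofAdd (-1))⁻¹) (Multiplicative.ofAdd a) =
        Multiplicative.ofAdd (d.T a) := by
      show Multiplicative.ofAdd (d.bv 1 * (d.T ^ (1 : ℤ)) a) = _
      rw [bv_one, one_mul, zpow_one]
    rw [e] at this; exact this
  have hc2 : ∀ a : FractionRing R, (inl (Multiplicative.ofAdd a) : GG d.φ) ∈ Q →
      (inl (Multiplicative.ofAdd (ι R β * a)) : GG d.φ) ∈ Q := by
    intro a h
    have := hQ.conj _ h (inr (inl b₀⁻¹))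
    rw [conj_inl, right_inr, ← map_inv, inv_inv] at this
    have e : d.φ (inl b₀) (Multiplicative.ofAdd a) = Multiplicative.ofAdd (ι R β * a) := by
      show Multiplicative.ofAdd (d.bv b₀ * (d.T ^ (0 : ℤ)) a) = _
      rw [hb₀, bv_mkB, zpow_zero]; rfl
    rw [e] at this; exact this
  have hadd : ∀ a b : FractionRing R, (inl (Multiplicative.ofAdd a) : GG d.φ) ∈ Q →
      (inl (Multiplicative.ofAdd b) : GG d.φ) ∈ Q →
      (inl (Multiplicative.ofAdd (a + b)) : GG d.φ) ∈ Q := by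
    intro a b h h'
    rw [ofAdd_add, map_mul]; exact hQ.mul _ h _ h'
  have hnot : ∀ a : FractionRing R, (inl (Multiplicative.ofAdd a) : GG d.φ) ∈ Q →
      d.Cp (-a) → False := by
    intro a h h'
    have h1 : (inl (Multiplicative.ofAdd (-a)) : GG d.φ) ∈ Q := hPQ ⟨-a, Or.inr h', rfl⟩
    have h2 : (inl (Multiplicative.ofAdd a) : GG d.φ)⁻¹ ∈ Q := by
      rw [← map_inv]; exact h1
    have h3 := hQ.pt _ h h2
    have h4 : Multiplicative.ofAdd a = 1 := inl_injective (h3.trans (map_one inl).symm)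
    have h5 : a = 0 := h4
    rw [h5, neg_zero] at h'
    exact d.cp_ne h' rfl
  rcases hT (inl (Multiplicative.ofAdd a)) with h | h
  · -- `a > 0`
    have h1 := hadd _ _ h (hc2 _ (hc1 _ h))
    refine hnot _ h1 ?_
    refine ⟨-((algebraMap ℚ R (1/4) + algebraMap ℚ R (3/4) * d.x) +
      β * d.τ (algebraMap ℚ R (1/4) + algebraMap ℚ R (3/4) * d.x)), 1, ?_, ?_, by simp, by simp, ?_⟩
    · rw [map_neg, map_add, map_mul, d.e₁τ, hβ1]
      simp only [map_add, map_mul, hq₁, hq₂, d.e₁x, d.e₂x]; norm_num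
    · rw [map_neg, map_add, map_mul, d.e₂τ, hβ2]
      simp only [map_add, map_mul, hq₁, hq₂, d.e₁x, d.e₂x]; norm_num
    · rw [map_one, mul_one, ha, d.T_ι, map_neg, map_add (ι R) _ (β * _), map_mul (ι R) β]
  · have h' : (inl (Multiplicative.ofAdd (-a)) : GG d.φ) ∈ Q := by
      have : (inl (Multiplicative.ofAdd (-a)) : GG d.φ) = (inl (Multiplicative.ofAdd a))⁻¹ := by
        rw [← map_inv]; rfl
      rw [this]; exact h
    have h1 := hadd _ _ h' (hc1 _ h')
    refine hnot _ h1 ?_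
    refine ⟨(algebraMap ℚ R (1/4) + algebraMap ℚ R (3/4) * d.x) +
      d.τ (algebraMap ℚ R (1/4) + algebraMap ℚ R (3/4) * d.x), 1, ?_, ?_, by simp, by simp, ?_⟩
    · rw [map_add, d.e₁τ]
      simp only [map_add, map_mul, hq₁, hq₂, d.e₁x, d.e₂x]; norm_num
    · rw [map_add, d.e₂τ]
      simp only [map_add, map_mul, hq₁, hq₂, d.e₁x, d.e₂x]; norm_num
    · rw [map_one, mul_one, ha, map_neg, d.T_ι, map_add (ι R) _ (d.τ _)]; ring

end Dat

end Pool.Agent.Lib.MP_79a327_al
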