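import Pool.Agent.Lib.MP_79a327_al.Final

set_option autoImplicit false

namespace Pool.Agent.Lib.MP_79a327_al

open MvPolynomial

/-- The polynomial ring `ℚ[s, x, y]`. -/
abbrev RR := MvPolynomial (Fin 3) ℚ

/-- `x ↦ x + c s y`. -/
noncomputable def f1 (c : ℚ) : RR →ₐ[ℚ] RR :=
  aeval ![X 0, X 1 + C c * X 0 * X 2, X 2]

/-- `y ↦ y + c s x`. -/
noncomputable def f2 (c : ℚ) : RR →ₐ[ℚ] RR :=
  aeval ![X 0, X 1, X 2 + C c * X 0 * X 1]

theorem f1_comp (c : ℚ) : (f1 c).comp (f1 (-c)) = AlgHom.id ℚ RR := by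
  apply MvPolynomial.algHom_ext
  intro i
  fin_cases i
  · simp [f1]
  · simp [f1]
  · simp [f1]

theorem f2_comp (c : ℚ) : (f2 c).comp (f2 (-c)) = AlgHom.id ℚ RR := by
  apply MvPolynomial.algHom_ext
  intro i
  fin_cases i
  · simp [f2]
  · simp [f2]
  · simp [f2]

/-- The automorphism. -/
noncomputable def tau : RR ≃ₐ[ℚ] RR :=
  (AlgEquiv.ofAlgHom (f1 2) (f1 (-2)) (f1_comp 2) (by simpa using f1_comp (-2))).trans
    (AlgEquiv.ofAlgHom (f2 (-2)) (f2 2) (by simpa using f2_comp (-2)) (by simpa using f2_comp 2))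

theorem tau_apply (r : RR) : tau r = f2 (-2) (f1 2 r) := rfl

theorem tau_X0 : tau (X 0) = X 0 := by
  rw [tau_apply]; simp [f1, f2]

theorem tau_X1 : tau (X 1) = X 1 + C 2 * X 0 * (X 2 + C (-2) * X 0 * X 1) := by
  rw [tau_apply]; simp [f1, f2]

theorem tau_X2 : tau (X 2) = X 2 + C (-2) * X 0 * X 1 := by
  rw [tau_apply]; simp [f1, f2]

/-- Reduction modulo `s` does not see the automorphism. -/
theorem tau_mod (r : RR) : (X 0 : RR) ∣ tau r - r := by
  have h : ((Ideal.Quotient.mkₐ ℚ (Ideal.span {(X 0 : RR)})).comp (tau : RR →ₐ[ℚ] RR)) =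
      Ideal.Quotient.mkₐ ℚ (Ideal.span {(X 0 : RR)}) := by
    apply MvPolynomial.algHom_ext
    intro i
    have hX : (Ideal.Quotient.mk (Ideal.span {(X 0 : RR)})) (X 0) = 0 :=
      Ideal.Quotient.eq_zero_iff_mem.2 (Ideal.subset_span rfl)
    fin_cases i
    · show Ideal.Quotient.mk _ (tau (X 0)) = Ideal.Quotient.mk _ (X 0)
      rw [tau_X0]
    · show Ideal.Quotient.mk _ (tau (X 1)) = Ideal.Quotient.mk _ (X 1)
      rw [tau_X1]; simp only [map_add, map_mul, hX]; ring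
    · show Ideal.Quotient.mk _ (tau (X 2)) = Ideal.Quotient.mk _ (X 2)
      rw [tau_X2]; simp only [map_add, map_mul, hX]; ring
  have h2 : Ideal.Quotient.mk (Ideal.span {(X 0 : RR)}) (tau r) =
      Ideal.Quotient.mk (Ideal.span {(X 0 : RR)}) r := by
    have := AlgHom.congr_fun h r
    exact this
  rw [Ideal.Quotient.eq, Ideal.mem_span_singleton] at h2
  exact h2

/-- Evaluation at a point with `s = 1`, `x = y = c`. -/
noncomputable def ev (c : ℚ) : RR →ₐ[ℚ] ℚ := aeval ![1, c, c]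

theorem ev_tau (c : ℚ) (r : RR) : ev c (tau r) = ev (-c) r := by
  have h : (ev c).comp (tau : RR →ₐ[ℚ] RR) = ev (-c) := by
    apply MvPolynomial.algHom_ext
    intro i
    fin_cases i
    · show ev c (tau (X 0)) = ev (-c) (X 0)
      rw [tau_X0]; simp [ev]
    · show ev c (tau (X 1)) = ev (-c) (X 1)
      rw [tau_X1]; simp [ev]; ring
    · show ev c (tau (X 2)) = ev (-c) (X 2)
      rw [tau_X2]; simp [ev]; ring
  exact AlgHom.congr_fun h r

/-- The concrete data. -/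
noncomputable def dat : Dat RR where
  s := X 0
  prime := MvPolynomial.X_prime
  fin P hP := by
    have h := FiniteMultiplicity.of_prime_left (MvPolynomial.X_prime (i := (0 : Fin 3)) (R := ℚ)) hP
    obtain ⟨c, hc, hc'⟩ := h.exists_eq_pow_mul_and_not_dvd
    exact ⟨_, c, hc, hc'⟩
  τ := tau.toRingEquiv
  τs := tau_X0
  τmod := tau_mod
  e₁ := (ev 1).toRingHom
  e₂ := (ev (-1)).toRingHom
  e₁s := by show ev 1 (X 0) = 1; simp [ev]
  e₂s := by show ev (-1) (X 0) = 1; simp [ev]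
  e₁τ r := ev_tau 1 r
  e₂τ r := by
    have := ev_tau (-1) r
    rw [neg_neg] at this; exact this
  x := X 1
  e₁x := by show ev 1 (X 1) = 1; simp [ev]
  e₂x := by show ev (-1) (X 1) = -1; simp [ev]

/-- The group. -/
abbrev TheGroup : Type := GG dat.φ

theorem theGroup_wstar : WStar TheGroup := dat.wstar

end Pool.Agent.Lib.MP_79a327_al
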