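import Pool.Agent.Lib.MP_79a327_al.Cones

set_option autoImplicit false

namespace Pool.Agent.Lib.MP_79a327_al

open SemidirectProduct

/-- Every weakly abelian partial order extends to a weakly abelian total order. -/
def WStar (G : Type*) [Group G] : Prop :=
  ∀ P : Set G, PO P → WA P → ∃ Q, P ⊆ Q ∧ PO Q ∧ WA Q ∧ Tot Q

/-- The additive endomorphism given by an automorphism of a commutative group. -/
def opM {B : Type*} [CommGroup B] (σ : MulAut B) : AddMonoid.End (Additive B) where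
  toFun b := Additive.ofMul (σ b.toMul)
  map_zero' := by simp
  map_add' a b := by simp

/-- The operators `σ ^ j` and `2 - σ ^ j`. -/
def opsB {B : Type*} [CommGroup B] (σ : MulAut B) : Set (AddMonoid.End (Additive B)) :=
  {w | ∃ j : ℤ, w = opM (σ ^ j) ∨ w = 1 + 1 - opM (σ ^ j)}

theorem opM_mul {B : Type*} [CommGroup B] (σ τ : MulAut B) : opM (σ * τ) = opM σ * opM τ := rfl

theorem opsB_comm {B : Type*} [CommGroup B] (σ : MulAut B) (w w' : AddMonoid.End (Additive B))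
    (hw : Gen (opsB σ) w) (hw' : Gen (opsB σ) w') : w * w' = w' * w := by
  have base : ∀ i j : ℤ, Commute (opM (σ ^ i)) (opM (σ ^ j)) := by
    intro i j
    show opM (σ ^ i) * opM (σ ^ j) = opM (σ ^ j) * opM (σ ^ i)
    rw [← opM_mul, ← opM_mul, ← zpow_add, ← zpow_add, add_comm]
  have step1 : ∀ w, Gen (opsB σ) w → ∀ j : ℤ, Commute w (opM (σ ^ j)) := by
    intro w hw
    induction hw with
    | base w hw =>
      intro j
      obtain ⟨i, rfl | rfl⟩ := hw
      · exact base i j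
      · exact ((Commute.one_left _).add_left (Commute.one_left _)).sub_left (base i j)
    | add w w' _ _ ih ih' => intro j; exact (ih j).add_left (ih' j)
    | mul w w' _ _ ih ih' => intro j; exact (ih j).mul_left (ih' j)
  have step2 : ∀ w', Gen (opsB σ) w' → Commute w w' := by
    intro w' hw'
    induction hw' with
    | base w' hw' =>
      obtain ⟨i, rfl | rfl⟩ := hw'
      · exact step1 w hw i
      · exact ((Commute.one_right _).add_right (Commute.one_right _)).sub_right (step1 w hw i)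
    | add w w' _ _ ih ih' => exact ih.add_right ih'
    | mul w w' _ _ ih ih' => exact ih.mul_right ih'
  exact step2 w' hw'

/-- Conjugation of the normal factor by an element of the complement. -/
theorem conj_inl {N G : Type*} [CommGroup N] [Group G] (φ : G →* MulAut N) (x : N ⋊[φ] G) (n : N) :
    x⁻¹ * inl n * x = inl (φ x.right⁻¹ n) := by
  have h : ∀ a b : N, a⁻¹ * b * a = b := by
    intro a b; rw [mul_comm, mul_inv_cancel_left]
  apply SemidirectProduct.ext
  · simp only [mul_left, inv_left, left_inl, inv_right, mul_right, right_inl, mul_one,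
      map_inv]
    exact h _ _
  · simp

/-- A total cone on a commutative group stable under `σ ^ j` and `2 - σ ^ j`. -/
structure TC {B : Type*} [CommGroup B] (σ : MulAut B) (Q : Set B) : Prop where
  one : (1 : B) ∈ Q
  mul : ∀ a ∈ Q, ∀ b ∈ Q, a * b ∈ Q
  pt : ∀ a ∈ Q, a⁻¹ ∈ Q → a = 1
  act : ∀ j : ℤ, ∀ a ∈ Q, (σ ^ j) a ∈ Q
  wa : ∀ j : ℤ, ∀ a ∈ Q, ((σ ^ j) a)⁻¹ * a ^ 2 ∈ Q
  tot : ∀ a, a ∈ Q ∨ a⁻¹ ∈ Q

theorem TC.sq_cancel {B : Type*} [CommGroup B] {σ : MulAut B} {Q : Set B} (hQ : TC σ Q) {a : B}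
    (h : a * a ∈ Q) : a ∈ Q := by
  rcases hQ.tot a with h1 | h1
  · exact h1
  · have h2 : a * a = 1 := hQ.pt _ h (by rw [mul_inv]; exact hQ.mul _ h1 _ h1)
    have h3 : a⁻¹ = a := inv_eq_of_mul_eq_one_right h2
    rwa [h3] at h1

/-- The convex hull of the subgroup `{σ y * y⁻¹}`. -/
def hull {B : Type*} [CommGroup B] (σ : MulAut B) (Q : Set B) (hQ : TC σ Q) : Subgroup B where
  carrier := {b | ∃ y, σ y * y⁻¹ ∈ Q ∧ (σ y * y⁻¹) * b⁻¹ ∈ Q ∧ (σ y * y⁻¹) * b ∈ Q}
  mul_mem' := by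
    rintro b b' ⟨y, h1, h2, h3⟩ ⟨y', h1', h2', h3'⟩
    refine ⟨y * y', ?_, ?_, ?_⟩
    · have : σ (y * y') * (y * y')⁻¹ = (σ y * y⁻¹) * (σ y' * y'⁻¹) := by
        rw [map_mul, mul_inv]; exact mul_mul_mul_comm _ _ _ _
      rw [this]; exact hQ.mul _ h1 _ h1'
    · have : σ (y * y') * (y * y')⁻¹ * (b * b')⁻¹ = (σ y * y⁻¹ * b⁻¹) * (σ y' * y'⁻¹ * b'⁻¹) := by
        rw [map_mul, mul_inv, mul_inv, mul_mul_mul_comm (σ y), mul_mul_mul_comm (σ y * y⁻¹)]
      rw [this]; exact hQ.mul _ h2 _ h2'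
    · have : σ (y * y') * (y * y')⁻¹ * (b * b') = (σ y * y⁻¹ * b) * (σ y' * y'⁻¹ * b') := by
        rw [map_mul, mul_inv, mul_mul_mul_comm (σ y), mul_mul_mul_comm (σ y * y⁻¹)]
      rw [this]; exact hQ.mul _ h3 _ h3'
  one_mem' := ⟨1, by simpa using hQ.one, by simpa using hQ.one, by simpa using hQ.one⟩
  inv_mem' := by
    rintro b ⟨y, h1, h2, h3⟩
    exact ⟨y, h1, by simpa using h3, h2⟩

theorem mem_hull {B : Type*} [CommGroup B] (σ : MulAut B) (Q : Set B) (hQ : TC σ Q) (b : B) :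
    b ∈ hull σ Q hQ ↔ ∃ y, σ y * y⁻¹ ∈ Q ∧ (σ y * y⁻¹) * b⁻¹ ∈ Q ∧ (σ y * y⁻¹) * b ∈ Q := Iff.rfl

theorem hull_basic {B : Type*} [CommGroup B] (σ : MulAut B) (Q : Set B) (hQ : TC σ Q) (y : B) :
    σ y * y⁻¹ ∈ hull σ Q hQ := by
  rw [mem_hull]
  rcases hQ.tot (σ y * y⁻¹) with h | h
  · exact ⟨y, h, by rw [mul_inv_cancel]; exact hQ.one, hQ.mul _ h _ h⟩
  · have e : σ y⁻¹ * (y⁻¹)⁻¹ = (σ y * y⁻¹)⁻¹ := by rw [map_inv, mul_inv]
    refine ⟨y⁻¹, ?_, ?_, ?_⟩
    · rw [e]; exact h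
    · rw [e]; exact hQ.mul _ h _ h
    · rw [e, inv_mul_cancel]; exact hQ.one

theorem hull_convex {B : Type*} [CommGroup B] (σ : MulAut B) (Q : Set B) (hQ : TC σ Q) {c e : B}
    (hc : c ∈ Q) (he : e ∈ Q) (h : c * e ∈ hull σ Q hQ) : c ∈ hull σ Q hQ := by
  obtain ⟨y, h1, h2, h3⟩ := h
  refine ⟨y, h1, ?_, hQ.mul _ h1 _ hc⟩
  have : σ y * y⁻¹ * c⁻¹ = (σ y * y⁻¹ * (c * e)⁻¹) * e := by
    rw [mul_inv, mul_assoc (σ y * y⁻¹), mul_assoc (c⁻¹), inv_mul_cancel, mul_one]
  rw [this]; exact hQ.mul _ h2 _ he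

theorem hull_act {B : Type*} [CommGroup B] (σ : MulAut B) (Q : Set B) (hQ : TC σ Q) (j : ℤ) (b : B) :
    (σ ^ j) b * b⁻¹ ∈ hull σ Q hQ := by
  induction j using Int.induction_on generalizing b with
  | zero => simp
  | succ i ih =>
    have h1 := ih (σ b)
    have h2 := hull_basic σ Q hQ b
    have e : (σ ^ ((i : ℤ) + 1)) b * b⁻¹ = ((σ ^ (i : ℤ)) (σ b) * (σ b)⁻¹) * (σ b * b⁻¹) := by
      rw [zpow_add_one, MulAut.mul_apply, mul_assoc ((σ ^ (i : ℤ)) (σ b)), inv_mul_cancel_left]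
    rw [e]; exact (hull σ Q hQ).mul_mem h1 h2
  | pred i ih =>
    have h1 := ih (σ⁻¹ b)
    have h2 := hull_basic σ Q hQ (σ⁻¹ b)
    have e : (σ ^ (-(i : ℤ) - 1)) b * b⁻¹ =
        ((σ ^ (-(i : ℤ))) (σ⁻¹ b) * (σ⁻¹ b)⁻¹) * (σ (σ⁻¹ b) * (σ⁻¹ b)⁻¹)⁻¹ := by
      rw [zpow_sub_one, MulAut.mul_apply, mul_inv, inv_inv, MulAut.apply_inv_self,
        mul_assoc ((σ ^ (-(i : ℤ))) (σ⁻¹ b)), mul_comm b⁻¹, inv_mul_cancel_left]
    rw [e]; exact (hull σ Q hQ).mul_mem h1 ((hull σ Q hQ).inv_mem h2)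

theorem hull_stable {B : Type*} [CommGroup B] (σ : MulAut B) (Q : Set B) (hQ : TC σ Q) (j : ℤ)
    {b : B} (hb : b ∈ hull σ Q hQ) : (σ ^ j) b ∈ hull σ Q hQ := by
  have := (hull σ Q hQ).mul_mem (hull_act σ Q hQ j b) hb
  simpa using this

theorem pow_mem_Q {B : Type*} [CommGroup B] {σ : MulAut B} {Q : Set B} (hQ : TC σ Q) {b : B}
    (hb : b ∈ Q) (n : ℕ) : b ^ n ∈ Q := by
  induction n with
  | zero => rw [pow_zero]; exact hQ.one
  | succ n ih => rw [pow_succ]; exact hQ.mul _ ih _ hb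

theorem hull_tf {B : Type*} [CommGroup B] (σ : MulAut B) (Q : Set B) (hQ : TC σ Q) {b : B} {n : ℕ}
    (hn : 0 < n) (h : b ^ n ∈ hull σ Q hQ) : b ∈ hull σ Q hQ := by
  obtain ⟨m, rfl⟩ : ∃ m, n = m + 1 := ⟨n - 1, by omega⟩
  rcases hQ.tot b with hb | hb
  · rw [pow_succ, mul_comm] at h
    exact hull_convex σ Q hQ hb (pow_mem_Q hQ hb m) h
  · have h' : b⁻¹ ^ (m + 1) ∈ hull σ Q hQ := by
      rw [inv_pow]; exact (hull σ Q hQ).inv_mem h
    rw [pow_succ, mul_comm] at h'
    have := hull_convex σ Q hQ hb (pow_mem_Q hQ hb m) h'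
    simpa using (hull σ Q hQ).inv_mem this

/-- The group `B ⋊ ℤ`, with the generator of `ℤ` acting by `σ`. -/
abbrev HG {B : Type*} [CommGroup B] (σ : MulAut B) :=
  B ⋊[zpowersHom (MulAut B) σ] (Multiplicative ℤ)

theorem act_eq {B : Type*} [CommGroup B] (σ : MulAut B) (t : Multiplicative ℤ) :
    zpowersHom (MulAut B) σ t = σ ^ t.toAdd := rfl

/-- Projection of `B ⋊ ℤ` to `(B/L) × ℤ`. -/
def proj {B : Type*} [CommGroup B] (σ : MulAut B) (Q : Set B) (hQ : TC σ Q) :
    HG σ →* (B ⧸ hull σ Q hQ) × Multiplicative ℤ where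
  toFun x := (QuotientGroup.mk x.left, x.right)
  map_one' := rfl
  map_mul' x y := by
    apply Prod.ext
    · show (QuotientGroup.mk (x.left * (zpowersHom (MulAut B) σ x.right) y.left) :
          B ⧸ hull σ Q hQ) = QuotientGroup.mk x.left * QuotientGroup.mk y.left
      rw [← QuotientGroup.mk_mul, QuotientGroup.eq]
      have := hull_act σ Q hQ (-x.right.toAdd) ((σ ^ x.right.toAdd) y.left)
      have e : (x.left * (zpowersHom (MulAut B) σ x.right) y.left)⁻¹ * (x.left * y.left) =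
          (σ ^ (-x.right.toAdd)) ((σ ^ x.right.toAdd) y.left) * ((σ ^ x.right.toAdd) y.left)⁻¹ := by
        rw [← MulAut.mul_apply, ← zpow_add, neg_add_cancel, zpow_zero, MulAut.one_apply, act_eq,
          mul_inv, mul_mul_mul_comm, inv_mul_cancel, one_mul, mul_comm]
      rw [e]; exact this
    · rfl

theorem proj_apply {B : Type*} [CommGroup B] (σ : MulAut B) (Q : Set B) (hQ : TC σ Q) (x : HG σ) :
    proj σ Q hQ x = (QuotientGroup.mk x.left, x.right) := rfl

/-- The key estimate: an element `c` of the cone dominating all `σ^j y * y⁻¹` is not in the hull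
unless it is trivial. -/
theorem key_est {B : Type*} [CommGroup B] (σ : MulAut B) (Q : Set B) (hQ : TC σ Q) {c : B}
    (hc : c ∈ Q) (hcL : c ∈ hull σ Q hQ) (k : ℕ) (hk : 0 < k)
    (hdom : ∀ y : B, ((σ ^ (k : ℤ)) y * y⁻¹)⁻¹ * c ∈ Q) : c = 1 := by
  obtain ⟨y₀, h1, h2, h3⟩ := hcL
  set d₀ := σ y₀ * y₀⁻¹ with hd₀
  -- `D = σ^k y₀ y₀⁻¹ ≥ d₀`
  have hD : ∀ m : ℕ, ((σ ^ ((m + 1 : ℕ) : ℤ)) y₀ * y₀⁻¹) * d₀⁻¹ ∈ Q := by
    intro m
    induction m with
    | zero => simp [hd₀]; exact hQ.one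
    | succ m ih =>
      have e : ((σ ^ ((m + 1 + 1 : ℕ) : ℤ)) y₀ * y₀⁻¹) * d₀⁻¹ =
          (σ ^ ((m + 1 : ℕ) : ℤ)) d₀ * (((σ ^ ((m + 1 : ℕ) : ℤ)) y₀ * y₀⁻¹) * d₀⁻¹) := by
        have : (σ ^ ((m + 1 + 1 : ℕ) : ℤ)) y₀ = (σ ^ ((m + 1 : ℕ) : ℤ)) (σ y₀) := by
          rw [Nat.cast_succ (m + 1), zpow_add_one, MulAut.mul_apply]
        rw [this, hd₀, map_mul, map_inv]
        generalize (σ ^ ((m + 1 : ℕ) : ℤ)) (σ y₀) = u
        generalize (σ ^ ((m + 1 : ℕ) : ℤ)) y₀ = v
        generalize (σ y₀ * y₀⁻¹)⁻¹ = w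
        rw [← mul_assoc, ← mul_assoc (u * v⁻¹), mul_assoc u v⁻¹ v, inv_mul_cancel, mul_one]
      rw [e]
      exact hQ.mul _ (hQ.act _ _ h1) _ ih
  obtain ⟨m, rfl⟩ : ∃ m, k = m + 1 := ⟨k - 1, by omega⟩
  have hDm := hD m
  set D := (σ ^ ((m + 1 : ℕ) : ℤ)) y₀ * y₀⁻¹ with hDdef
  have h4 := hdom (y₀ * y₀)
  have e4 : (σ ^ ((m + 1 : ℕ) : ℤ)) (y₀ * y₀) * (y₀ * y₀)⁻¹ = D * D := by
    rw [map_mul, mul_inv]; exact mul_mul_mul_comm _ _ _ _
  rw [e4] at h4
  have hDQ : D ∈ Q := by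
    have := hQ.mul _ hDm _ h1
    rwa [inv_mul_cancel_right] at this
  have hDinv : D⁻¹ ∈ Q := by
    have := hQ.mul _ (hQ.mul _ h4 _ hDm) _ h2
    have e : (D * D)⁻¹ * c * (D * d₀⁻¹) * (d₀ * c⁻¹) = D⁻¹ := by
      rw [mul_inv]
      have : D⁻¹ * D⁻¹ * c * (D * d₀⁻¹) * (d₀ * c⁻¹) =
        D⁻¹ * (D⁻¹ * D) * (c * c⁻¹) * (d₀⁻¹ * d₀) := by
          simp only [mul_assoc, mul_comm, mul_left_comm]
      rw [this]; simp
    rwa [e] at this
  have hD1 : D = 1 := hQ.pt _ hDQ hDinv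
  have hd1 : d₀ = 1 := hQ.pt _ h1 (by rw [hD1, one_mul] at hDm; exact hDm)
  exact hQ.pt _ hc (by rw [hd1, one_mul] at h2; exact h2)

/-- The metabelian group `B ⋊ ℤ` has the extension property for weakly abelian orders. -/
theorem wstar_HG {B : Type*} [CommGroup B] (σ : MulAut B)
    (htf : ∀ b : Additive B, b ≠ 0 → ∀ w, Gen (opsB σ) w → w b ≠ 0) : WStar (HG σ) := by
  intro P hP hW
  -- the trace on `B`
  have inlB : ∀ b : B, ∀ j : ℤ, (inl b : HG σ) ∈ P → (inl ((σ ^ j) b) : HG σ) ∈ P := by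
    intro b j hb
    have := hP.conj _ hb (inr (Multiplicative.ofAdd (-j)))
    rw [conj_inl] at this
    simpa [act_eq] using this
  have inlW : ∀ b : B, ∀ j : ℤ, (inl b : HG σ) ∈ P → (inl (((σ ^ j) b)⁻¹ * b ^ 2) : HG σ) ∈ P := by
    intro b j hb
    have := hW _ hb (inr (Multiplicative.ofAdd (-j)))
    rw [conj_inl] at this
    simpa [act_eq] using this
  obtain ⟨Q₀, hPQ₀, hQ₀, hQ₀T⟩ := Cone.extend (opsB σ) (M := Additive B)
    ⟨0, Or.inl (by simp; rfl)⟩ (by
      intro a ha w₁ w₂ hw₁ hw₂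
      refine ⟨w₂, w₁, hw₂, hw₁, ?_, ?_⟩
      · rw [← end_mul_apply, ← end_mul_apply, opsB_comm σ _ _ hw₁ hw₂]
      · exact htf _ (htf _ ha _ hw₁) _ hw₂)
    (P := {b | (inl b.toMul : HG σ) ∈ P}) ⟨by
        show (inl (1 : B) : HG σ) ∈ P
        rw [map_one]; exact hP.one, by
        intro a ha b hb
        show (inl (a.toMul * b.toMul) : HG σ) ∈ P
        rw [map_mul]; exact hP.mul _ ha _ hb, by
        intro a ha hb
        have h1 : (inl a.toMul : HG σ)⁻¹ ∈ P := by rw [← map_inv]; exact hb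
        have h2 := hP.pt _ ha h1
        have h3 : a.toMul = 1 := by
          rw [← map_one inl] at h2
          exact inl_injective h2
        exact h3, by
        rintro w ⟨j, rfl | rfl⟩ a ha
        · exact inlB _ j ha
        · have := inlW _ j ha
          have e : ((1 : AddMonoid.End (Additive B)) + 1 - opM (σ ^ j)) a =
              Additive.ofMul (((σ ^ j) a.toMul)⁻¹ * a.toMul ^ 2) := by
            show a + a - Additive.ofMul ((σ ^ j) a.toMul) = _
            rw [ofMul_mul, ofMul_inv, ofMul_pow, ofMul_toMul]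
            abel
          rw [e]; exact this⟩
  set Q : Set B := Additive.ofMul ⁻¹' Q₀ with hQdef
  have hQ : TC σ Q := by
    refine ⟨hQ₀.zero, fun a ha b hb => hQ₀.add _ ha _ hb, fun a ha hb => hQ₀.pt _ ha hb, ?_, ?_,
      fun a => hQ₀T _⟩
    · intro j a ha
      exact hQ₀.act _ ⟨j, Or.inl rfl⟩ _ ha
    · intro j a ha
      have this : ((1 : AddMonoid.End (Additive B)) + 1 - opM (σ ^ j)) (Additive.ofMul a) ∈ Q₀ :=
        hQ₀.act _ ⟨j, Or.inr rfl⟩ _ ha
      have e : ((1 : AddMonoid.End (Additive B)) + 1 - opM (σ ^ j)) (Additive.ofMul a) =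
          Additive.ofMul (((σ ^ j) a)⁻¹ * a ^ 2) := by
        show Additive.ofMul a + Additive.ofMul a - Additive.ofMul ((σ ^ j) a) = _
        rw [ofMul_mul, ofMul_inv, ofMul_pow]
        abel
      rw [e] at this; exact this
  have hPQ : ∀ b : B, (inl b : HG σ) ∈ P → b ∈ Q := fun b hb => hPQ₀ hb
  set L := hull σ Q hQ with hL
  set π := proj σ Q hQ with hπ
  -- the cone on the quotient
  let S : Set ((B ⧸ L) × Multiplicative ℤ) :=
    {z | ∃ p ∈ P, ∃ q ∈ Q, z = π p * ((QuotientGroup.mk q : B ⧸ L), 1)}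
  have hmk : ∀ a b : B, ((QuotientGroup.mk (a * b) : B ⧸ L), (1 : Multiplicative ℤ)) =
      ((QuotientGroup.mk a : B ⧸ L), 1) * ((QuotientGroup.mk b : B ⧸ L), 1) := by
    intro a b; rfl
  have hS : PO S := by
    refine ⟨⟨1, hP.one, 1, hQ.one, by rw [map_one, one_mul]; rfl⟩, ?_, ?_, ?_⟩
    · rintro _ ⟨p, hp, q, hq, rfl⟩ _ ⟨p', hp', q', hq', rfl⟩
      refine ⟨p * p', hP.mul _ hp _ hp', q * q', hQ.mul _ hq _ hq', ?_⟩
      rw [map_mul, hmk]; exact mul_mul_mul_comm _ _ _ _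
    · rintro z ⟨p, hp, q, hq, hz⟩ ⟨p', hp', q', hq', hz'⟩
      have h1 : π (p * p') * ((QuotientGroup.mk (q * q') : B ⧸ L), 1) = 1 := by
        rw [map_mul, hmk, mul_mul_mul_comm, ← hz, ← hz', mul_inv_cancel]
      have hr : (p * p').right = 1 := by
        have := congrArg Prod.snd h1
        simpa [hπ, proj_apply] using this
      have hl : (p * p').left * (q * q') ∈ L := by
        have := congrArg Prod.fst h1
        simp only [hπ, proj_apply, Prod.fst_mul] at this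
        rw [← QuotientGroup.mk_mul] at this
        exact (QuotientGroup.eq_one_iff _).1 this
      have hpp : p * p' ∈ P := hP.mul _ hp _ hp'
      have hppinl : p * p' = inl (p * p').left := by
        apply SemidirectProduct.ext
        · simp only [left_inl]
        · rw [hr]; rfl
      set c := (p * p').left with hc
      have hcQ : c ∈ Q := hPQ _ (by rw [← hppinl]; exact hpp)
      have hqq : q * q' ∈ Q := hQ.mul _ hq _ hq'
      have hcL : c ∈ L := hull_convex σ Q hQ hcQ hqq hl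
      have hqqL : q * q' ∈ L := hull_convex σ Q hQ hqq hcQ (by rw [mul_comm]; exact hl)
      have hqL : q ∈ L := hull_convex σ Q hQ hq hq' hqqL
      have hp1 : p.right = 1 := by
        by_contra hne
        have hdom : ∀ y : B, ((σ ^ p.right.toAdd) y * y⁻¹) * c ∈ Q := by
          intro y
          apply hPQ
          have h2 := hP.mul _ (hP.conj _ hp (inl y)) _ hp'
          have e : (inl y)⁻¹ * p * inl y * p' = inl (((σ ^ p.right.toAdd) y * y⁻¹) * c) := by
            apply SemidirectProduct.ext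
            · simp only [mul_left, inv_left, right_inl, inv_one, map_one, MulAut.one_apply,
                left_inl, mul_right, inv_right, one_mul, mul_one, hc, act_eq]
              simp only [mul_assoc, mul_comm, mul_left_comm]
            · simp only [mul_right, inv_right, right_inl, inv_one, one_mul, mul_one]
              exact hr
          rw [e] at h2; exact h2
        have hj0 : p.right.toAdd ≠ 0 := by
          intro h; apply hne
          exact h
        have hc1 : c = 1 := by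
          refine key_est σ Q hQ hcQ hcL p.right.toAdd.natAbs (by omega) ?_
          intro y
          rcases Int.natAbs_eq p.right.toAdd with h | h
          · rw [← h]
            have := hdom y⁻¹
            rw [map_inv, ← mul_inv] at this
            exact this
          · have h' : ((p.right.toAdd.natAbs : ℕ) : ℤ) = -p.right.toAdd := by omega
            rw [h']
            have := hdom ((σ ^ (-p.right.toAdd)) y)
            rw [← MulAut.mul_apply, ← zpow_add, add_neg_cancel, zpow_zero,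
              MulAut.one_apply] at this
            rw [mul_inv, inv_inv, mul_comm _ y]
            exact this
        rw [hc1, map_one] at hppinl
        have : p⁻¹ = p' := inv_eq_of_mul_eq_one_right hppinl
        have := hP.pt _ hp (by rw [this]; exact hp')
        rw [this] at hne
        exact hne rfl
      have hp'1 : p'.right = 1 := by
        have : p.right * p'.right = 1 := hr
        rwa [hp1, one_mul] at this
      have hpinl : p = inl p.left := by
        apply SemidirectProduct.ext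
        · rfl
        · rw [hp1]; rfl
      have hp'inl : p' = inl p'.left := by
        apply SemidirectProduct.ext
        · rfl
        · rw [hp'1]; rfl
      have hbQ : p.left ∈ Q := hPQ _ (by rw [← hpinl]; exact hp)
      have hb'Q : p'.left ∈ Q := hPQ _ (by rw [← hp'inl]; exact hp')
      have hcbb : c = p.left * p'.left := by
        rw [hc, mul_left, hp1, map_one, MulAut.one_apply]
      have hbL : p.left ∈ L := hull_convex σ Q hQ hbQ hb'Q (by rw [← hcbb]; exact hcL)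
      rw [hz, hπ, proj_apply, hp1]
      apply Prod.ext
      · show (QuotientGroup.mk p.left : B ⧸ L) * QuotientGroup.mk q = 1
        rw [← QuotientGroup.mk_mul]
        exact (QuotientGroup.eq_one_iff _).2 (L.mul_mem hbL hqL)
      · rfl
    · intro a ha x
      have : x⁻¹ * a * x = a := by rw [mul_comm, mul_inv_cancel_left]
      rw [this]; exact ha
  have hquot : ∀ a : (B ⧸ L) × Multiplicative ℤ, ∀ n : ℕ, 0 < n → a ^ n = 1 → a = 1 := by
    rintro ⟨a, t⟩ n hn h
    have h1 : a ^ n = 1 := congrArg Prod.fst h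
    have h2 : t ^ n = 1 := congrArg Prod.snd h
    apply Prod.ext
    · induction a using QuotientGroup.induction_on with
      | H a =>
        rw [← QuotientGroup.mk_pow] at h1
        exact (QuotientGroup.eq_one_iff _).2
          (hull_tf σ Q hQ hn ((QuotientGroup.eq_one_iff _).1 h1))
    · have h3 : n • t.toAdd = 0 := h2
      rcases smul_eq_zero.1 h3 with h | h
      · omega
      · exact h
  obtain ⟨R, hSR, hR, hRW, hRT⟩ := abelian_extend hquot hS
  have hlex := lex π hR hRW hRT (N := {g | ∃ b ∈ L, b ∈ Q ∧ g = inl b}) (by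
      rintro g ⟨b, hb, _, rfl⟩
      rw [hπ, proj_apply]
      apply Prod.ext
      · exact (QuotientGroup.eq_one_iff _).2 hb
      · rfl) ⟨1, L.one_mem, hQ.one, by rw [map_one]⟩ (by
      rintro _ ⟨b, hb, hbQ, rfl⟩ _ ⟨b', hb', hbQ', rfl⟩
      exact ⟨b * b', L.mul_mem hb hb', hQ.mul _ hbQ _ hbQ', by rw [map_mul]⟩) (by
      rintro _ ⟨b, hb, hbQ, rfl⟩ ⟨b', hb', hbQ', h⟩
      rw [← map_inv] at h
      have h2 := inl_injective h
      rw [hQ.pt b hbQ (by rw [h2]; exact hbQ'), map_one]) (by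
      rintro _ ⟨b, hb, hbQ, rfl⟩ x
      exact ⟨_, hull_stable σ Q hQ _ hb, hQ.act _ _ hbQ, conj_inl _ x b⟩) (by
      rintro _ ⟨b, hb, hbQ, rfl⟩ x
      rw [conj_inl]
      refine ⟨((σ ^ (x.right⁻¹).toAdd) b)⁻¹ * b ^ 2, ?_, hQ.wa _ _ hbQ, ?_⟩
      · exact L.mul_mem (L.inv_mem (hull_stable σ Q hQ _ hb)) (L.pow_mem hb 2)
      · have e : ∀ u : B, (inl u : HG σ)⁻¹ * inl b ^ 2 = inl (u⁻¹ * b ^ 2) := fun u => by
          rw [map_mul, map_inv, map_pow]
        exact e _) (by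
      intro a ha
      rw [hπ, proj_apply] at ha
      have h1 : a.left ∈ L := (QuotientGroup.eq_one_iff _).1 (congrArg Prod.fst ha)
      have h2 : a.right = 1 := congrArg Prod.snd ha
      have h3 : a = inl a.left := by
        apply SemidirectProduct.ext
        · rfl
        · rw [h2]; rfl
      rcases hQ.tot a.left with h | h
      · exact Or.inl ⟨a.left, h1, h, h3⟩
      · exact Or.inr ⟨a.left⁻¹, L.inv_mem h1, h, by rw [map_inv, ← h3]⟩)
  refine ⟨_, ?_, hlex.1, hlex.2.1, hlex.2.2⟩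
  intro p hp
  by_cases h : π p = 1
  · right
    rw [hπ, proj_apply] at h
    have h1 : p.left ∈ L := (QuotientGroup.eq_one_iff _).1 (congrArg Prod.fst h)
    have h2 : p.right = 1 := congrArg Prod.snd h
    have h3 : p = inl p.left := by
      apply SemidirectProduct.ext
      · rfl
      · rw [h2]; rfl
    exact ⟨p.left, h1, hPQ _ (by rw [← h3]; exact hp), h3⟩
  · left
    refine ⟨h, hSR ⟨p, hp, 1, hQ.one, ?_⟩⟩
    have : ((QuotientGroup.mk (1 : B) : B ⧸ L), (1 : Multiplicative ℤ)) = 1 := rfl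
    rw [this, mul_one]

end Pool.Agent.Lib.MP_79a327_al
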