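import Pool.Agent.Lib.MP_79a327_al.Levels

set_option autoImplicit false

namespace Pool.Agent.Lib.MP_79a327_al

open SemidirectProduct

/-- The additive endomorphism of `F` given by an element of `H`. -/
def opA {F H : Type*} [AddCommGroup F] [Group H] (φ : H →* MulAut (Multiplicative F)) (h : H) :
    AddMonoid.End F where
  toFun a := (φ h (Multiplicative.ofAdd a)).toAdd
  map_zero' := by simp
  map_add' a b := by simp

theorem opA_apply {F H : Type*} [AddCommGroup F] [Group H] (φ : H →* MulAut (Multiplicative F))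
    (h : H) (a : F) : opA φ h a = (φ h (Multiplicative.ofAdd a)).toAdd := rfl

/-- The operators `h` and `2 - h`. -/
def opsA {F H : Type*} [AddCommGroup F] [Group H] (φ : H →* MulAut (Multiplicative F)) :
    Set (AddMonoid.End F) :=
  {w | ∃ h : H, w = opA φ h ∨ w = 1 + 1 - opA φ h}

/-- The semidirect product `F ⋊ H`. -/
abbrev GG {F H : Type*} [AddCommGroup F] [Group H] (φ : H →* MulAut (Multiplicative F)) :=
  Multiplicative F ⋊[φ] H

/-- Extension of weakly abelian orders to a semidirect product `F ⋊ H`. -/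
theorem wstar_G {F H : Type*} [AddCommGroup F] [Group H] (φ : H →* MulAut (Multiplicative F))
    (hH : WStar H)
    (hOre : ∀ a : F, a ≠ 0 → ∀ w₁ w₂, Gen (opsA φ) w₁ → Gen (opsA φ) w₂ →
      ∃ w₁' w₂', Gen (opsA φ) w₁' ∧ Gen (opsA φ) w₂' ∧ w₁' (w₁ a) = w₂' (w₂ a) ∧ w₁' (w₁ a) ≠ 0)
    (hdec : ∀ C : Set F, Cone (opsA φ) C → ∀ h : H, h ≠ 1 → ∀ c : F,
      ¬ ∀ a : F, c + (opA φ h a - a) ∈ C) :
    WStar (GG φ) := by
  intro P hP hW
  set C : Set F := {a | (inl (Multiplicative.ofAdd a) : GG φ) ∈ P} with hCdef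
  have inlA : ∀ a : F, ∀ h : H, a ∈ C → opA φ h a ∈ C := by
    intro a h ha
    have := hP.conj _ ha (inr h⁻¹)
    rw [conj_inl] at this
    simpa [hCdef, opA_apply] using this
  have inlW : ∀ a : F, ∀ h : H, a ∈ C → a + a - opA φ h a ∈ C := by
    intro a h ha
    have h1 := hW _ ha (inr h⁻¹)
    rw [conj_inl, right_inr, inv_inv] at h1
    have e : (inl (φ h (Multiplicative.ofAdd a)) : GG φ)⁻¹ * inl (Multiplicative.ofAdd a) ^ 2 =
        inl (Multiplicative.ofAdd (a + a - opA φ h a)) := by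
      rw [← map_inv, ← map_pow, ← map_mul]
      congr 1
      show Multiplicative.ofAdd (-(φ h (Multiplicative.ofAdd a)).toAdd + 2 • a) = _
      rw [opA_apply]
      congr 1
      rw [two_smul]; abel
    rw [e] at h1; exact h1
  have hC : Cone (opsA φ) C := by
    refine ⟨?_, ?_, ?_, ?_⟩
    · show (inl (Multiplicative.ofAdd 0) : GG φ) ∈ P
      rw [ofAdd_zero, map_one]; exact hP.one
    · intro a ha b hb
      show (inl (Multiplicative.ofAdd (a + b)) : GG φ) ∈ P
      rw [ofAdd_add, map_mul]; exact hP.mul _ ha _ hb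
    · intro a ha hb
      have h1 : (inl (Multiplicative.ofAdd a) : GG φ)⁻¹ ∈ P := by
        rw [← map_inv]; exact hb
      have h2 := hP.pt _ ha h1
      have h3 : Multiplicative.ofAdd a = 1 := inl_injective (h2.trans (map_one inl).symm)
      exact h3
    · rintro w ⟨h, rfl | rfl⟩ a ha
      · exact inlA a h ha
      · exact inlW a h ha
  obtain ⟨D, hCD, hD, hDT⟩ := Cone.extend (opsA φ) ⟨1, Or.inl (by
    ext a; show a = opA φ 1 a; rw [opA_apply, map_one]; rfl)⟩ hOre hC
  -- decoupling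
  have hpt : ∀ g ∈ P, ∀ g' ∈ P, rightHom g * rightHom g' = 1 → rightHom g = 1 := by
    intro g hg g' hg' hgg
    by_contra hne
    refine hdec C hC g.right hne
      ((g.left).toAdd + (φ g.right g'.left).toAdd) ?_
    intro a
    have h1 := hP.mul _ (hP.conj _ hg (inl (Multiplicative.ofAdd a))) _ hg'
    have e : (inl (Multiplicative.ofAdd a))⁻¹ * g * inl (Multiplicative.ofAdd a) * g' =
        (inl (Multiplicative.ofAdd ((g.left).toAdd + (φ g.right g'.left).toAdd +
          (opA φ g.right a - a))) : GG φ) := by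
      apply SemidirectProduct.ext
      · simp only [mul_left, inv_left, right_inl, inv_one, map_one, MulAut.one_apply,
          left_inl, mul_right, inv_right, one_mul, mul_one, opA_apply]
        show Multiplicative.ofAdd (-a + g.left.toAdd + (φ g.right (Multiplicative.ofAdd a)).toAdd +
          (φ g.right g'.left).toAdd) = _
        congr 1
        abel
      · simp only [mul_right, inv_right, right_inl, inv_one, one_mul, mul_one]
        exact hgg
    rw [e] at h1
    exact h1
  have hPH : PO ((rightHom : GG φ →* H) '' P) := by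
    refine ⟨⟨1, hP.one, map_one _⟩, ?_, ?_, ?_⟩
    · rintro _ ⟨p, hp, rfl⟩ _ ⟨p', hp', rfl⟩
      exact ⟨p * p', hP.mul _ hp _ hp', map_mul _ _ _⟩
    · rintro _ ⟨p, hp, rfl⟩ ⟨p', hp', h⟩
      exact hpt p hp p' hp' (by rw [h, mul_inv_cancel])
    · rintro _ ⟨p, hp, rfl⟩ x
      exact ⟨_, hP.conj p hp (inr x), by simp⟩
  have hWH : WA ((rightHom : GG φ →* H) '' P) := by
    rintro _ ⟨p, hp, rfl⟩ x
    exact ⟨_, hW p hp (inr x), by
      rw [map_mul, map_inv, map_mul, map_mul, map_inv, map_pow, rightHom_inr]⟩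
  obtain ⟨R, hPR, hR, hRW, hRT⟩ := hH _ hPH hWH
  have hlex := lex (rightHom : GG φ →* H) hR hRW hRT
    (N := {g | ∃ a ∈ D, g = inl (Multiplicative.ofAdd a)}) (by
      rintro g ⟨a, _, rfl⟩; exact rightHom_inl _) ⟨0, hD.zero, by rw [ofAdd_zero, map_one]⟩ (by
      rintro _ ⟨a, ha, rfl⟩ _ ⟨b, hb, rfl⟩
      exact ⟨a + b, hD.add _ ha _ hb, by rw [ofAdd_add, map_mul]⟩) (by
      rintro _ ⟨a, ha, rfl⟩ ⟨b, hb, h⟩
      have h' : (inl (Multiplicative.ofAdd (-a)) : GG φ) = inl (Multiplicative.ofAdd b) := by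
        rw [← h, ← map_inv]; rfl
      have h2 : Multiplicative.ofAdd (-a) = Multiplicative.ofAdd b := inl_injective h'
      have h2 : -a = b := h2
      rw [hD.pt a ha (by rw [h2]; exact hb), ofAdd_zero, map_one]) (by
      rintro _ ⟨a, ha, rfl⟩ x
      exact ⟨_, hD.act _ ⟨x.right⁻¹, Or.inl rfl⟩ a ha, conj_inl _ x _⟩) (by
      rintro _ ⟨a, ha, rfl⟩ x
      rw [conj_inl]
      refine ⟨_, hD.act _ ⟨x.right⁻¹, Or.inr rfl⟩ a ha, ?_⟩
      generalize x.right⁻¹ = h
      rw [← map_inv, ← map_pow, ← map_mul]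
      congr 1
      show Multiplicative.ofAdd (-(φ h (Multiplicative.ofAdd a)).toAdd + 2 • a) =
        Multiplicative.ofAdd (a + a - opA φ h a)
      rw [opA_apply]
      congr 1
      rw [two_smul]; abel) (by
      intro g hg
      have h3 : g = inl g.left := by
        apply SemidirectProduct.ext
        · rfl
        · exact hg
      rcases hDT g.left.toAdd with h | h
      · exact Or.inl ⟨_, h, h3⟩
      · exact Or.inr ⟨_, h, by rw [h3, ← map_inv]; rfl⟩)
  refine ⟨_, ?_, hlex.1, hlex.2.1, hlex.2.2⟩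
  intro p hp
  by_cases h : rightHom p = 1
  · right
    have h3 : p = inl p.left := by
      apply SemidirectProduct.ext
      · rfl
      · exact h
    refine ⟨p.left.toAdd, hCD ?_, h3⟩
    show (inl p.left : GG φ) ∈ P
    rw [← h3]; exact hp
  · left
    exact ⟨h, hPR ⟨p, hp, rfl⟩⟩

end Pool.Agent.Lib.MP_79a327_al
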